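import Mathlib

/-!
# Simultaneous approximation by the pigeonhole principle
-/

set_option autoImplicit false

namespace Pool.Agent.TH322.AC

/-- points in a square: two of them are close -/
theorem close_pair {T : Type} [Fintype T] (z : T → ℂ) (L : ℝ) (hL : 0 < L) (hz : ∀ t, ‖z t‖ < L)
    (M : ℕ) (hM : 0 < M) (hcard : M * M < Fintype.card T) :
    ∃ t t' : T, t ≠ t' ∧ ‖z t - z t'‖ ^ 2 ≤ 2 * (2 * L / M) ^ 2 := by
  classical
  have hM0 : (0 : ℝ) < M := by exact_mod_cast hM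
  set h : ℝ := 2 * L / M with hh
  have hh0 : 0 < h := by positivity
  have hrange : ∀ x : ℝ, |x| < L → ⌊(x + L) / h⌋₊ ∈ Finset.range M := by
    intro x hx
    obtain ⟨h1, h2⟩ := abs_lt.1 hx
    rw [Finset.mem_range, Nat.floor_lt (by
      have : 0 ≤ x + L := by linarith
      positivity)]
    rw [div_lt_iff₀ hh0, hh, mul_div_assoc', mul_comm (M : ℝ), mul_div_assoc, div_self hM0.ne',
      mul_one]
    linarith
  have hfloor : ∀ x y : ℝ, |x| < L → |y| < L → ⌊(x + L) / h⌋₊ = ⌊(y + L) / h⌋₊ →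
      (x - y) ^ 2 ≤ h ^ 2 := by
    intro x y hx hy hxy
    have hx0 : 0 ≤ (x + L) / h := by
      have : 0 ≤ x + L := by linarith [(abs_lt.1 hx).1]
      positivity
    have hy0 : 0 ≤ (y + L) / h := by
      have : 0 ≤ y + L := by linarith [(abs_lt.1 hy).1]
      positivity
    have h1 := Nat.floor_le hx0
    have h2 := Nat.lt_floor_add_one ((x + L) / h)
    have h3 := Nat.floor_le hy0
    have h4 := Nat.lt_floor_add_one ((y + L) / h)
    rw [hxy] at h1 h2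
    have h5 : (x + L) / h - (y + L) / h = (x - y) / h := by ring
    have h6 : |(x - y) / h| ≤ 1 := by
      rw [← h5, abs_le]
      constructor <;> linarith
    rw [abs_div, abs_of_pos hh0, div_le_one hh0] at h6
    exact sq_le_sq' (by linarith [neg_abs_le (x - y)]) (by linarith [le_abs_self (x - y)])
  have hre : ∀ t, |(z t).re| < L := fun t => (Complex.abs_re_le_norm _).trans_lt (hz t)
  have him : ∀ t, |(z t).im| < L := fun t => (Complex.abs_im_le_norm _).trans_lt (hz t)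
  have hc : (Finset.range M ×ˢ Finset.range M).card < (Finset.univ : Finset T).card := by
    rw [Finset.card_product, Finset.card_range, Finset.card_univ]
    exact hcard
  obtain ⟨t, -, t', -, hne, heq⟩ := Finset.exists_ne_map_eq_of_card_lt_of_maps_to hc
    (f := fun t => (⌊((z t).re + L) / h⌋₊, ⌊((z t).im + L) / h⌋₊))
    (fun t _ => Finset.mem_product.2 ⟨hrange _ (hre t), hrange _ (him t)⟩)
  refine ⟨t, t', hne, ?_⟩
  rw [Prod.mk.injEq] at heq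
  have h1 := hfloor _ _ (hre t) (hre t') heq.1
  have h2 := hfloor _ _ (him t) (him t') heq.2
  rw [← Complex.normSq_eq_norm_sq, Complex.normSq_apply, Complex.sub_re, Complex.sub_im]
  nlinarith

theorem approx {R ι : Type} [CommRing R] [Fintype ι] [DecidableEq ι] (σ : ι → (R →+* ℂ))
    (w : ι → ℕ) (v₀ : ι) (hN : ∀ m : R, m ≠ 0 → 1 ≤ ∏ v, ‖σ v m‖ ^ w v) (hw : w v₀ = 2)
    {r : ℕ} (hr : r = ∑ v, w v) (e : Fin r → R) (he : LinearIndependent ℤ e) (c : ℂ) (B : ℝ) (hB : 0 ≤ B) :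
    ∃ (q : ℤ) (p : R), q ≠ 0 ∧ ‖(q : ℂ) * c - σ v₀ p‖ ^ 2
      * ∏ v ∈ Finset.univ.erase v₀, (1 + (|(q : ℝ)| * B + ‖σ v p‖)) ^ w v < 1 := by
  classical
  obtain ⟨e', he'⟩ : ∃ e', e' = ∑ v ∈ Finset.univ.erase v₀, w v := ⟨_, rfl⟩
  have hre : r = e' + 2 := by
    rw [hr, he', ← Finset.add_sum_erase _ _ (Finset.mem_univ v₀), hw, add_comm]
  set E₁ : ℝ := ‖c‖ + ∑ j, ‖σ v₀ (e j)‖ + 1 with hE₁
  have hE₁0 : 0 < E₁ := by positivity
  set E : ℝ := 1 + B + ∑ v, ∑ j, ‖σ v (e j)‖ with hE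
  have hE1 : 1 ≤ E := by
    have : 0 ≤ ∑ v, ∑ j, ‖σ v (e j)‖ :=
      Finset.sum_nonneg fun v _ => Finset.sum_nonneg fun j _ => norm_nonneg _
    linarith
  obtain ⟨s₀, hs₀⟩ := exists_nat_gt (64 * E₁ ^ 2 * E ^ e')
  set s : ℕ := s₀ + 2 with hs
  set Q : ℕ := s ^ 2 with hQ
  have hQpos : 0 < Q := by positivity
  have hQ0 : (0 : ℝ) < Q := by exact_mod_cast hQpos
  have hQ1 : (1 : ℝ) ≤ Q := by exact_mod_cast hQpos
  have hQbig : 64 * E₁ ^ 2 * E ^ e' < Q := by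
    have h1 : (s₀ : ℝ) ≤ Q := by
      have : s₀ ≤ Q := by
        rw [hQ, hs]
        nlinarith
      exact_mod_cast this
    linarith
  set a : ℕ := s ^ (r + 1) with ha
  have ha4 : 4 ≤ a := by
    rw [ha]
    calc 4 = 2 ^ 2 := by norm_num
      _ ≤ s ^ 2 := Nat.pow_le_pow_left (by omega) 2
      _ ≤ s ^ (r + 1) := Nat.pow_le_pow_right (by omega) (by omega)
  have hMcast : (((a - 1 : ℕ)) : ℝ) = (a : ℝ) - 1 := by
    rw [Nat.cast_sub (by omega), Nat.cast_one]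
  have ha4' : (4 : ℝ) ≤ a := by exact_mod_cast ha4
  let T : Type := Fin Q × (Fin r → Fin Q)
  let z : T → ℂ := fun t => (t.1 : ℕ) * c - ∑ j, ((t.2 j : ℕ) : ℂ) * σ v₀ (e j)
  have hcardT : Fintype.card T = a * a := by
    show Fintype.card (Fin Q × (Fin r → Fin Q)) = a * a
    rw [Fintype.card_prod, Fintype.card_fun, Fintype.card_fin, Fintype.card_fin, hQ, ha]
    rw [← pow_mul, ← pow_add, ← pow_add]
    congr 1
    omega
  have hz : ∀ t : T, ‖z t‖ < Q * E₁ := by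
    intro t
    have h1 : ‖((t.1 : ℕ) : ℂ) * c‖ ≤ Q * ‖c‖ := by
      rw [norm_mul, Complex.norm_natCast]
      refine mul_le_mul_of_nonneg_right ?_ (norm_nonneg _)
      exact_mod_cast t.1.2.le
    have h2 : ‖∑ j, ((t.2 j : ℕ) : ℂ) * σ v₀ (e j)‖ ≤ Q * ∑ j, ‖σ v₀ (e j)‖ := by
      rw [Finset.mul_sum]
      refine (norm_sum_le _ _).trans (Finset.sum_le_sum fun j _ => ?_)
      rw [norm_mul, Complex.norm_natCast]
      refine mul_le_mul_of_nonneg_right ?_ (norm_nonneg _)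
      exact_mod_cast (t.2 j).2.le
    calc ‖z t‖ ≤ Q * ‖c‖ + Q * ∑ j, ‖σ v₀ (e j)‖ := (norm_sub_le _ _).trans (add_le_add h1 h2)
      _ < Q * E₁ := by
        rw [hE₁]
        nlinarith
  obtain ⟨t, t', hne, hclose⟩ := close_pair z (Q * E₁) (by positivity) hz (a - 1) (by omega)
    (by
      rw [hcardT]
      exact Nat.mul_lt_mul'' (by omega) (by omega))
  set q : ℤ := (t.1 : ℤ) - (t'.1 : ℤ) with hq
  set p : R := ∑ j, (((t.2 j : ℕ) : ℤ) - ((t'.2 j : ℕ) : ℤ)) • e j with hp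
  have hσp : ∀ v, σ v p = ∑ j, ((((t.2 j : ℕ) : ℤ) - ((t'.2 j : ℕ) : ℤ) : ℤ) : ℂ) * σ v (e j) := by
    intro v
    rw [hp, map_sum]
    refine Finset.sum_congr rfl fun j _ => ?_
    rw [map_zsmul, zsmul_eq_mul]
  have hdiff : (q : ℂ) * c - σ v₀ p = z t - z t' := by
    rw [hσp, hq]
    show _ = ((t.1 : ℕ) * c - ∑ j, ((t.2 j : ℕ) : ℂ) * σ v₀ (e j))
      - ((t'.1 : ℕ) * c - ∑ j, ((t'.2 j : ℕ) : ℂ) * σ v₀ (e j))
    have h1 : ∑ j, ((((t.2 j : ℕ) : ℤ) - ((t'.2 j : ℕ) : ℤ) : ℤ) : ℂ) * σ v₀ (e j)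
        = ∑ j, ((t.2 j : ℕ) : ℂ) * σ v₀ (e j) - ∑ j, ((t'.2 j : ℕ) : ℂ) * σ v₀ (e j) := by
      rw [← Finset.sum_sub_distrib]
      refine Finset.sum_congr rfl fun j _ => ?_
      push_cast
      ring
    rw [h1]
    push_cast
    ring
  have habs : ∀ m n : ℕ, m < Q → n < Q → |(((m : ℤ) - (n : ℤ) : ℤ) : ℝ)| ≤ Q := by
    intro m n hm hn
    rw [abs_le]
    push_cast
    have h1 : (m : ℝ) ≤ Q := by exact_mod_cast hm.le
    have h2 : (n : ℝ) ≤ Q := by exact_mod_cast hn.le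
    have h3 : (0 : ℝ) ≤ m := Nat.cast_nonneg _
    have h4 : (0 : ℝ) ≤ n := Nat.cast_nonneg _
    constructor <;> linarith
  have hqQ : |(q : ℝ)| ≤ Q := habs _ _ t.1.2 t'.1.2
  have hpQ : ∀ v, ‖σ v p‖ ≤ Q * ∑ j, ‖σ v (e j)‖ := by
    intro v
    rw [hσp, Finset.mul_sum]
    refine (norm_sum_le _ _).trans (Finset.sum_le_sum fun j _ => ?_)
    rw [norm_mul, Complex.norm_intCast]
    exact mul_le_mul_of_nonneg_right (habs _ _ (t.2 j).2 (t'.2 j).2) (norm_nonneg _)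
  have hfac : ∀ v, 1 + (|(q : ℝ)| * B + ‖σ v p‖) ≤ Q * E := by
    intro v
    have h1 : ∑ j, ‖σ v (e j)‖ ≤ ∑ v, ∑ j, ‖σ v (e j)‖ :=
      Finset.single_le_sum (f := fun v => ∑ j, ‖σ v (e j)‖)
        (fun v _ => Finset.sum_nonneg fun j _ => norm_nonneg _) (Finset.mem_univ v)
    have h2 : |(q : ℝ)| * B ≤ Q * B := mul_le_mul_of_nonneg_right hqQ hB
    have h3 : Q * ∑ j, ‖σ v (e j)‖ ≤ Q * ∑ v, ∑ j, ‖σ v (e j)‖ :=
      mul_le_mul_of_nonneg_left h1 hQ0.le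
    have h4 := hpQ v
    rw [hE]
    nlinarith
  have hprod : ∏ v ∈ Finset.univ.erase v₀, (1 + (|(q : ℝ)| * B + ‖σ v p‖)) ^ w v
      ≤ (Q * E) ^ e' := by
    rw [he', ← Finset.prod_pow_eq_pow_sum]
    refine Finset.prod_le_prod (fun v _ => by positivity) fun v _ => ?_
    exact pow_le_pow_left₀ (by positivity) (hfac v) _
  have hclose2 : ‖(q : ℂ) * c - σ v₀ p‖ ^ 2 ≤ 64 * E₁ ^ 2 / (Q : ℝ) ^ (e' + 1) := by
    rw [hdiff]
    refine hclose.trans ?_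
    rw [hMcast]
    have h1 : 2 * (Q * E₁) / ((a : ℝ) - 1) ≤ 4 * (Q * E₁) / a := by
      rw [div_le_div_iff₀ (by linarith) (by linarith)]
      have : 0 ≤ Q * E₁ := by positivity
      nlinarith
    have h0 : 0 ≤ 2 * (Q * E₁) / ((a : ℝ) - 1) := div_nonneg (by positivity) (by linarith)
    have h2 := pow_le_pow_left₀ h0 h1 2
    have h3 : (a : ℝ) ^ 2 = (Q : ℝ) ^ (e' + 3) := by
      rw [ha, hQ, hre]
      push_cast
      rw [← pow_mul, ← pow_mul]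
      congr 1
      ring
    have h4 : 2 * (4 * (Q * E₁) / a) ^ 2 = 32 * E₁ ^ 2 / (Q : ℝ) ^ (e' + 1) := by
      rw [div_pow, h3, mul_pow, mul_pow]
      have : (Q : ℝ) ^ (e' + 3) = (Q : ℝ) ^ (e' + 1) * Q ^ 2 := by rw [← pow_add]
      rw [this]
      field_simp
      norm_num
    have h5 : 32 * E₁ ^ 2 / (Q : ℝ) ^ (e' + 1) ≤ 64 * E₁ ^ 2 / (Q : ℝ) ^ (e' + 1) := by
      apply div_le_div_of_nonneg_right _ (by positivity)
      nlinarith [sq_nonneg E₁]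
    linarith
  have hlt : ‖(q : ℂ) * c - σ v₀ p‖ ^ 2
      * ∏ v ∈ Finset.univ.erase v₀, (1 + (|(q : ℝ)| * B + ‖σ v p‖)) ^ w v < 1 := by
    have h1 : ‖(q : ℂ) * c - σ v₀ p‖ ^ 2
        * ∏ v ∈ Finset.univ.erase v₀, (1 + (|(q : ℝ)| * B + ‖σ v p‖)) ^ w v
        ≤ 64 * E₁ ^ 2 / (Q : ℝ) ^ (e' + 1) * (Q * E) ^ e' := by
      refine mul_le_mul hclose2 hprod ?_ (by positivity)
      exact Finset.prod_nonneg fun v _ => by positivity
    refine h1.trans_lt ?_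
    have h2 : 64 * E₁ ^ 2 / (Q : ℝ) ^ (e' + 1) * (Q * E) ^ e' = 64 * E₁ ^ 2 * E ^ e' / Q := by
      rw [mul_pow, pow_succ]
      field_simp
      ring
    rw [h2, div_lt_one hQ0]
    exact hQbig
  refine ⟨q, p, ?_, hlt⟩
  intro hq0
  -- `q = 0`: then `p ≠ 0` and the product formula gives a contradiction
  have ht1 : t.1 = t'.1 := by
    have h1 : ((t.1 : ℕ) : ℤ) = ((t'.1 : ℕ) : ℤ) := by
      have := hq0
      rw [hq] at this
      exact sub_eq_zero.1 this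
    exact Fin.ext (by exact_mod_cast h1)
  have hp0 : p ≠ 0 := by
    intro hp0
    apply hne
    have h1 := Fintype.linearIndependent_iff.1 he
      (fun j => ((t.2 j : ℕ) : ℤ) - ((t'.2 j : ℕ) : ℤ)) hp0
    refine Prod.ext ht1 (funext fun j => Fin.ext ?_)
    have := sub_eq_zero.1 (h1 j)
    exact_mod_cast this
  have h1 := hN p hp0
  rw [← Finset.mul_prod_erase _ _ (Finset.mem_univ v₀), hw] at h1
  have h2 : ‖σ v₀ p‖ ^ 2 * ∏ v ∈ Finset.univ.erase v₀, ‖σ v p‖ ^ w v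
      ≤ ‖(q : ℂ) * c - σ v₀ p‖ ^ 2
        * ∏ v ∈ Finset.univ.erase v₀, (1 + (|(q : ℝ)| * B + ‖σ v p‖)) ^ w v := by
    refine mul_le_mul ?_ ?_ (Finset.prod_nonneg fun v _ => by positivity) (by positivity)
    · rw [hq0, Int.cast_zero, zero_mul, zero_sub, norm_neg]
    · refine Finset.prod_le_prod (fun v _ => by positivity) fun v _ => ?_
      refine pow_le_pow_left₀ (norm_nonneg _) ?_ _
      have : 0 ≤ |(q : ℝ)| * B := by positivity
      linarith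
  linarith

end Pool.Agent.TH322.AC
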