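import Mathlib

/-!
# Number fields: embeddings, product formula
-/

set_option autoImplicit false
open NumberField

namespace Pool.Agent.TH322.AC

theorem field_dat (S : Set ℂ) (hfin : S.Finite) (halg : ∀ z ∈ S, IsAlgebraic ℚ z) :
    ∃ K : IntermediateField ℚ ℂ, NumberField K ∧ Complex.I ∈ K ∧ ∀ z ∈ S, z ∈ K := by
  have hfin' : Finite (↑(S ∪ {Complex.I}) : Set ℂ) := (hfin.union (Set.finite_singleton _)).to_subtype
  have hint : ∀ x ∈ S ∪ {Complex.I}, IsIntegral ℚ x := by
    rintro x (hx | hx)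
    · exact (halg x hx).isIntegral
    · rw [Set.mem_singleton_iff] at hx
      subst hx
      refine ⟨Polynomial.X ^ 2 + 1, ?_, ?_⟩
      · monicity!
      · simp
  have hfd : FiniteDimensional ℚ (IntermediateField.adjoin ℚ (S ∪ {Complex.I})) :=
    IntermediateField.finiteDimensional_adjoin hint
  refine ⟨IntermediateField.adjoin ℚ (S ∪ {Complex.I}), ?_, ?_, ?_⟩
  · exact { to_charZero := inferInstance, to_finiteDimensional := hfd }
  · exact IntermediateField.subset_adjoin ℚ _ (Set.mem_union_right _ rfl)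
  · intro z hz
    exact IntermediateField.subset_adjoin ℚ _ (Set.mem_union_left _ hz)

theorem nt_dat (S : Set ℂ) (hfin : S.Finite) (halg : ∀ z ∈ S, IsAlgebraic ℚ z) :
    ∃ (R : Type) (_ : CommRing R) (ι : Type) (_ : Fintype ι) (_ : DecidableEq ι)
      (σ : ι → R →+* ℂ) (w : ι → ℕ) (v₀ : ι) (D : ℤ) (e : Fin (∑ v, w v) → R), D ≠ 0 ∧
      (∀ v, Function.Injective (σ v)) ∧ (∀ m : R, m ≠ 0 → 1 ≤ ∏ v, ‖σ v m‖ ^ w v) ∧
      w v₀ = 2 ∧ LinearIndependent ℤ e ∧ ∀ z ∈ S, ∃ m : R, σ v₀ m = D * z := by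
  classical
  obtain ⟨K, hK, hI, hS⟩ := field_dat S hfin halg
  let φ : K →+* ℂ := algebraMap K ℂ
  let v₀ : InfinitePlace K := InfinitePlace.mk φ
  have hcx : v₀.IsComplex := by
    rw [InfinitePlace.isComplex_mk_iff]
    intro h
    have h1 : ComplexEmbedding.conjugate φ ⟨Complex.I, hI⟩ = φ ⟨Complex.I, hI⟩ := by
      rw [ComplexEmbedding.isReal_iff.1 h]
    have h2 : (starRingEnd ℂ) Complex.I = Complex.I := h1
    rw [Complex.conj_I] at h2
    have h3 := congrArg Complex.im h2
    norm_num at h3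
  let τ : InfinitePlace K → (K →+* ℂ) := fun v => if v = v₀ then φ else v.embedding
  have hτ : ∀ (v : InfinitePlace K) (x : K), ‖τ v x‖ = v x := by
    intro v x
    by_cases h : v = v₀
    · have : τ v = φ := if_pos h
      rw [this, h]
      exact (InfinitePlace.apply φ x).symm
    · have : τ v = v.embedding := if_neg h
      rw [this]
      exact InfinitePlace.norm_embedding_eq v x
  have hcard : ∑ v : InfinitePlace K, v.mult = Module.finrank ℤ (𝓞 K) := by
    rw [InfinitePlace.sum_mult_eq, RingOfIntegers.rank]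
  -- common denominator
  have hden : ∃ D : ℤ, D ≠ 0 ∧ ∀ z ∈ hfin.toFinset, IsIntegral ℤ (D • z) := by
    have h1 : ∀ s : Finset ℂ, (∀ z ∈ s, IsAlgebraic ℚ z) → ∃ D : ℤ, D ≠ 0 ∧ ∀ z ∈ s, IsIntegral ℤ (D • z) := by
      intro s
      induction s using Finset.induction_on with
      | empty => exact fun _ => ⟨1, one_ne_zero, by simp⟩
      | insert z s hz ih =>
        intro hs
        obtain ⟨D, hD, hDs⟩ := ih fun y hy => hs y (Finset.mem_insert_of_mem hy)
        have h2 : IsAlgebraic ℤ z :=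
          (IsFractionRing.isAlgebraic_iff ℤ ℚ ℂ).2 (hs z (Finset.mem_insert_self _ _))
        obtain ⟨E, hE, hEz⟩ := h2.exists_integral_multiple
        refine ⟨E * D, mul_ne_zero hE hD, fun y hy => ?_⟩
        rw [Finset.mem_insert] at hy
        rcases hy with rfl | hy
        · rw [mul_comm, mul_smul]
          exact hEz.smul D
        · rw [mul_smul]
          exact (hDs y hy).smul E
    exact h1 _ fun z hz => halg z (hfin.mem_toFinset.1 hz)
  obtain ⟨D, hD, hDS⟩ := hden
  let bs := RingOfIntegers.basis K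
  have hcard2 : Fintype.card (Module.Free.ChooseBasisIndex ℤ (𝓞 K))
      = ∑ v : InfinitePlace K, v.mult := by
    rw [hcard, Module.finrank_eq_card_chooseBasisIndex]
  let eq := (Fintype.equivFinOfCardEq hcard2).symm
  refine ⟨𝓞 K, inferInstance, InfinitePlace K, inferInstance, inferInstance,
    fun v => (τ v).comp (algebraMap (𝓞 K) K), fun v => v.mult, v₀, D, fun i => bs (eq i), hD,
    ?_, ?_, ?_, ?_, ?_⟩
  · intro v
    exact (τ v).injective.comp (FaithfulSMul.algebraMap_injective (𝓞 K) K)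
  · intro m hm
    have h1 : ∏ v : InfinitePlace K, ‖((τ v).comp (algebraMap (𝓞 K) K)) m‖ ^ v.mult
        = |(Algebra.norm ℚ (m : K) : ℝ)| := by
      have h2 := InfinitePlace.prod_eq_abs_norm (m : K)
      rw [Rat.cast_abs] at h2
      rw [← h2]
      exact Finset.prod_congr rfl fun v _ => by rw [← hτ]; rfl
    rw [h1, ← Algebra.coe_norm_int, Rat.cast_intCast, ← Int.cast_abs, ← Int.cast_one, Int.cast_le]
    exact Int.one_le_abs (Algebra.norm_ne_zero_iff.2 hm)
  · exact hcx.mult_eq_two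
  · exact bs.linearIndependent.comp _ eq.injective
  · intro z hz
    have h1 : IsIntegral ℤ (D • (⟨z, hS z hz⟩ : K)) := by
      have h2 := hDS z (hfin.mem_toFinset.2 hz)
      have h3 : (D • z : ℂ) = algebraMap K ℂ (D • (⟨z, hS z hz⟩ : K)) := by
        rw [map_zsmul]
        rfl
      rw [h3] at h2
      exact (isIntegral_algebraMap_iff (FaithfulSMul.algebraMap_injective K ℂ)).1 h2
    refine ⟨⟨_, h1⟩, ?_⟩
    have h4 : τ v₀ = φ := if_pos rfl
    show τ v₀ (D • (⟨z, hS z hz⟩ : K)) = _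
    rw [h4, map_zsmul, zsmul_eq_mul]
    rfl

end Pool.Agent.TH322.AC
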