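import Pool.Agent.W338.RO.Abs

/-!
# The abstract theorem, for operators of small trace and determinant at least one

Adapted from `Pool.Agent.W338.RO.t_ABS` (helper338) and `Pool.Agent.H712R5.BO.t_D7` (helper712): there the
determinant bound is asked for the powers of `T - τ(T)`, here for the powers of `T`, where `|τ(T)| < 1`.
-/

set_option autoImplicit false
open scoped ComplexConjugate InnerProductSpace Topology
open Filter MeasureTheory NormedSpace

namespace Pool.Agent.TH322.AC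
open Pool.Agent.H712R5.BO Pool.Agent.H417B Pool.Agent.W611.RO Pool.Agent.W338.RO

theorem ex_shift {A : Type} [CStarAlgebra A] (S : A) (d z : ℂ) :
    ex z (S + d • (1 : A)) = Complex.exp (z * d) • ex z S := by
  let _ : NormedAlgebra ℚ A := NormedAlgebra.restrictScalars ℚ ℂ A
  unfold ex
  have h1 : z • (S + d • (1 : A)) = (z * d) • (1 : A) + z • S := by
    rw [smul_add, smul_smul, add_comm]
  have h2 : Commute ((z * d) • (1 : A)) (z • S) := (Commute.one_left _).smul_left _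
  rw [h1, NormedSpace.exp_add_of_commute h2]
  have h3 : NormedSpace.exp ((z * d) • (1 : A)) = Complex.exp (z * d) • (1 : A) := by
    rw [← Algebra.algebraMap_eq_smul_one, ← NormedSpace.algebraMap_exp_comm, Complex.exp_eq_exp_ℂ,
      Algebra.algebraMap_eq_smul_one]
  rw [h3, smul_mul_assoc, one_mul]

/-- the shifted form of `P_D7` -/
theorem D7s (h1 : P_B4u) (h2 : P_D1) (h3 : P_D3) (h4 : P_D4) (h5 : P_D6)
    (A : Type) [CStarAlgebra A] (τ : A →L[ℂ] ℂ) (hτ : TrSt τ) (T S : A) (d : ℂ)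
    (hTS : T = S + d • (1 : A)) (k M : ℕ) (hk : 1 ≤ k) (hM : 1 ≤ M) :
    (τ (CFC.log (algebraMap ℝ A ((ck k) ^ 2) + star (T ^ k) * T ^ k))).re
      ≤ 2 * Real.log (ck k) + 4 * Real.pi * k * ‖T‖ / M + 2 * k * ‖d‖ + M * Real.log 2
        + ∑ j : Fin M, NN τ (ex (k * rt M j) S) := by
  let := CStarAlgebra.spectralOrder A
  have := CStarAlgebra.spectralOrderedRing A
  let : NormedAlgebra ℚ A := NormedAlgebra.restrictScalars ℚ ℂ A
  obtain ⟨b1, b2, -⟩ := h1 A τ hτ
  obtain ⟨d1, d2⟩ := h2 A τ hτ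
  have hc : 0 < ck k := D7_ck_pos hk
  set C : ℝ := Real.exp (4 * Real.pi * k * ‖T‖ / M) with hC
  have hC1 : 1 ≤ C := by
    rw [hC, ← Real.exp_zero]
    apply Real.exp_le_exp.mpr
    have := Real.pi_pos
    positivity
  set E : ℝ := Real.exp (2 * k * ‖d‖) with hE
  have hE1 : 1 ≤ E := by
    rw [hE, ← Real.exp_zero]
    apply Real.exp_le_exp.mpr
    positivity
  set a : Fin M → A := fun j => star (ex (k * rt M j) S) * ex (k * rt M j) S with ha
  have ha0 : ∀ j, 0 ≤ a j := fun j => star_mul_self_nonneg _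
  have hsum0 : 0 ≤ ∑ j, a j := Finset.sum_nonneg fun j _ => ha0 j
  have haj : ∀ j : Fin M, star (ex (k * rt M j) T) * ex (k * rt M j) T ≤ E • a j := by
    intro j
    have e1 : star (ex (k * rt M j) T) * ex (k * rt M j) T
        = (‖Complex.exp (k * rt M j * d)‖ ^ 2) • a j := by
      rw [hTS, ex_shift, star_smul, smul_mul_smul_comm]
      have e2 : star (Complex.exp (k * rt M j * d)) * Complex.exp (k * rt M j * d)
          = ((‖Complex.exp (k * rt M j * d)‖ ^ 2 : ℝ) : ℂ) := by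
        push_cast
        exact Complex.conj_mul' _
      rw [e2, Complex.coe_smul]
    rw [e1]
    refine smul_le_smul_of_nonneg_right ?_ (ha0 j)
    rw [Complex.norm_exp, ← Real.exp_nat_mul, hE]
    apply Real.exp_le_exp.mpr
    have e3 : (k * rt M j * d : ℂ).re ≤ k * ‖d‖ := by
      refine (Complex.re_le_norm _).trans ?_
      rw [norm_mul, norm_mul, rt_norm, mul_one, Complex.norm_natCast]
    push_cast
    nlinarith
  have hD6 : star (T ^ k) * T ^ k ≤ ((ck k) ^ 2 * C) •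
      ∑ j : Fin M, star (ex (k * rt M j) T) * ex (k * rt M j) T := h5 A T k M hk hM
  have hcC : 0 < (ck k) ^ 2 * C := by positivity
  have hcCE : 0 < (ck k) ^ 2 * C * E := by positivity
  have hD6' : star (T ^ k) * T ^ k ≤ ((ck k) ^ 2 * C * E) • ∑ j, a j := by
    have e0 : ∑ j : Fin M, star (ex (k * rt M j) T) * ex (k * rt M j) T ≤ E • ∑ j, a j := by
      rw [Finset.smul_sum]
      exact Finset.sum_le_sum fun j _ => haj j
    have e1 := smul_le_smul_of_nonneg_left e0 hcC.le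
    rw [mul_smul]
    exact hD6.trans e1
  have hle : algebraMap ℝ A ((ck k) ^ 2) + star (T ^ k) * T ^ k ≤
      ((ck k) ^ 2 * C * E) • (1 + ∑ j, a j) := by
    rw [smul_add]
    refine add_le_add ?_ hD6'
    rw [← Algebra.algebraMap_eq_smul_one]
    apply algebraMap_mono
    have : (1 : ℝ) ≤ C * E := by nlinarith
    nlinarith [sq_nonneg (ck k)]
  have hpos : IsStrictlyPositive (algebraMap ℝ A ((ck k) ^ 2) + star (T ^ k) * T ^ k) := by
    refine IsStrictlyPositive.add_nonneg ?_ (star_mul_self_nonneg _)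
    exact isStrictlyPositive_algebraMap (by positivity)
  have hpos1 : IsStrictlyPositive (1 + ∑ j, a j) :=
    IsStrictlyPositive.add_nonneg isStrictlyPositive_one hsum0
  have e1 := d2 _ _ hpos hle
  rw [CFC.log_smul' _ hcCE hpos1, map_add, Complex.add_re, D7_algMap τ hτ] at e1
  have e2 := h3 A τ hτ M a ha0
  have e3 : ∀ j, (τ (CFC.log (1 + a j))).re ≤ Real.log 2 + NN τ (ex (k * rt M j) S) := by
    intro j
    have hu : IsUnit (ex (k * rt M j) S) := NormedSpace.isUnit_exp _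
    have h6 := h4 A τ hτ (Lg (ex (k * rt M j) S)) (b1 _)
    rw [b2 _ hu] at h6
    exact h6
  have e4 : ∑ j, (τ (CFC.log (1 + a j))).re ≤
      M * Real.log 2 + ∑ j : Fin M, NN τ (ex (k * rt M j) S) := by
    refine (Finset.sum_le_sum fun j _ => e3 j).trans ?_
    rw [Finset.sum_add_distrib]
    simp
  have e5 : Real.log ((ck k) ^ 2 * C * E)
      = 2 * Real.log (ck k) + 4 * Real.pi * k * ‖T‖ / M + 2 * k * ‖d‖ := by
    rw [Real.log_mul (by positivity) (by positivity), Real.log_mul (by positivity) (by positivity),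
      Real.log_pow, hC, hE, Real.log_exp, Real.log_exp]
    push_cast
    ring
  rw [e5] at e1
  linarith

theorem low1 {R : ℝ} (hR : 0 ≤ R) {t : ℝ} (ht1 : t < 1) {M : ℕ}
    (hM : 8 * Real.pi * R / (1 - t) + 1 ≤ M) :
    ∃ K : ℕ, 1 ≤ K ∧ ∀ k ≥ K, ∀ s : ℝ,
      0 ≤ 2 * Real.log (ck k) + 4 * Real.pi * k * R / M + 2 * k * t + M * Real.log 2 + s →
      k * ((1 - t) / 2) ≤ s := by
  have hpi := Real.pi_pos
  have ht : 0 < 1 - t := by linarith
  have hM1' : (1 : ℝ) ≤ M := by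
    have : 0 ≤ 8 * Real.pi * R / (1 - t) := by positivity
    linarith
  have hM0 : (0 : ℝ) < M := by linarith
  have hlim : Tendsto (fun k : ℕ => (2 * Real.log (k : ℝ) + (2 + M * Real.log 2)) / (k : ℝ)) atTop
      (𝓝 0) := by
    have h1 : Tendsto (fun x : ℝ => Real.log x / x) atTop (𝓝 0) :=
      Real.isLittleO_log_id_atTop.tendsto_div_nhds_zero
    have h2 : Tendsto (fun k : ℕ => Real.log (k : ℝ) / (k : ℝ)) atTop (𝓝 0) :=
      h1.comp tendsto_natCast_atTop_atTop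
    have h3 : Tendsto (fun k : ℕ => (2 + M * Real.log 2) / (k : ℝ)) atTop (𝓝 0) :=
      tendsto_const_div_atTop_nhds_zero_nat _
    have h4 := (h2.const_mul 2).add h3
    rw [mul_zero, add_zero] at h4
    refine h4.congr fun k => ?_
    ring
  have hev := hlim.eventually (gt_mem_nhds ht)
  obtain ⟨K, hK⟩ := eventually_atTop.1 hev
  refine ⟨max K 1, le_max_right _ _, fun k hk s hs => ?_⟩
  have hk1 : 1 ≤ k := (le_max_right _ _).trans hk
  have hk0 : (0 : ℝ) < k := by exact_mod_cast hk1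
  have h1 := hK k ((le_max_left _ _).trans hk)
  rw [div_lt_iff₀ hk0] at h1
  have hf : (0 : ℝ) < (k.factorial : ℝ) := by exact_mod_cast k.factorial_pos
  have h2 : Real.log (ck k) = Real.log (k.factorial : ℝ) - k * Real.log k := by
    rw [ck, Real.log_div hf.ne' (by positivity), Real.log_pow]
  have h3 := D8_fact k hk1
  have h4 : Real.log (ck k) ≤ Real.log k - k + 1 := by
    rw [h2]
    linarith
  have h8 : 4 * Real.pi * k * R / M ≤ k * ((1 - t) / 2) := by
    rw [div_le_iff₀ hM0]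
    have h9 : 8 * Real.pi * R / (1 - t) ≤ M := by linarith
    rw [div_le_iff₀ ht] at h9
    nlinarith
  nlinarith

/-- the abstract theorem: `|τ(T)| < 1` and all powers of `T` of determinant at least one -/
theorem t_ABS1 : ∀ (Y : Type) [MeasurableSpace Y] (ν : Measure Y) [IsProbabilityMeasure ν]
  (J : Type) [Countable J] (H : Type) [NormedAddCommGroup H] [InnerProductSpace ℂ H]
  [CompleteSpace H] (A : Type) [CStarAlgebra A] (τ : A →L[ℂ] ℂ)
  (e : Y → (A →⋆ₐ[ℂ] (H →L[ℂ] H))) (w : J → H) (v : H), TrSt τ → ‖v‖ = 1 →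
  (∀ x : H, (∀ r, ⟪x, w r⟫_ℂ = 0) → x = 0) →
  (∀ (a : A) (x : H), Measurable (fun y => ‖e y a x‖)) →
  (∀ a : A, Integrable (fun y => ⟪v, e y a v⟫_ℂ) ν ∧ τ a = ∫ y, ⟪v, e y a v⟫_ℂ ∂ν) →
  (∀ (a : A) (r : J), Integrable (fun y => ‖e y a (w r)‖ ^ 2) ν ∧
    ∫ y, ‖e y a (w r)‖ ^ 2 ∂ν ≤ (n2 τ a) ^ 2) →
  (∀ (B : ℕ → A) (R : ℝ), (∀ i, ‖B i‖ ≤ R) →
    (∀ᵐ y ∂ν, ¬ ∃ c : ℂ, ∀ x : H, Tendsto (fun i => e y (B i) x) atTop (𝓝 (c • x))) ∨
    (∃ c : ℂ, ∀ᵐ y ∂ν, ∀ x : H, Tendsto (fun i => e y (B i) x) atTop (𝓝 (c • x)))) →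
  ∀ T : A, ‖τ T‖ < 1 → (∀ (k : ℕ) (δ : ℝ), 1 ≤ k → 0 < δ →
    0 ≤ (τ (CFC.log (algebraMap ℝ A δ + star (T ^ k) * T ^ k))).re) →
  ∀ᵐ y ∂ν, HasHyp (e y T) := by
  intro Y _ ν _ J _ H _ _ _ A _ τ e w v hτ hv hw hmeas htau hn2 h01 T ht1 hdet
  have hB2 : P_B2 := t_B2 t_B2a t_B1
  have hB3 : P_B3 := t_B3 t_B1 hB2 t_B2c
  have hB4u : P_B4u := t_B4u t_B1 t_B4v
  have hB4 : P_B4 := t_B4 t_B1 hB3 hB4u
  have hB5 : P_B5 := t_B5 t_B1 hB4 hB4u
  have hB6 : P_B6 := t_B6 t_B1 hB4u hB5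
  have hB8 : P_B8 := t_B8 hB6 (t_B7 t_B1)
  have hB9 : P_B9 := t_B9 t_B1 hB4u hB8
  have hB12 : P_B12 := t_B12 t_B1 t_B10 (t_B11 hB4 hB9)
  have hB13 : P_B13 := t_B13 hB2
  have hD2 : P_D2 := t_D2 hB2 t_D1
  have hD3 : P_D3 := t_D3 hD2
  have hD4 : P_D4 := t_D4 t_B1
  have hD6 : P_D6 := t_D6 t_D5
  have hC12 : P_C12H := t_C12H t_B4v t_C10 t_C11
  have hB1 := t_B1 A τ hτ
  obtain ⟨S, hS⟩ : ∃ S : A, S = T - τ T • (1 : A) := ⟨_, rfl⟩
  have hTS : T = S + τ T • (1 : A) := by rw [hS, sub_add_cancel]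
  have hS0 : τ S = 0 := by
    have h1 : τ (τ T • (1 : A)) = τ T • τ 1 := τ.map_smul _ _
    rw [hS, map_sub, h1, hτ.one, smul_eq_mul, mul_one, sub_self]
  have ht : 0 < 1 - ‖τ T‖ := by linarith
  obtain ⟨M, hM⟩ := exists_nat_ge (8 * Real.pi * ‖T‖ / (1 - ‖τ T‖) + 1)
  have hM1 : 1 ≤ M := by
    have : (1 : ℝ) ≤ M := by
      have : 0 ≤ 8 * Real.pi * ‖T‖ / (1 - ‖τ T‖) := by positivity
      linarith
    exact_mod_cast this
  obtain ⟨K₀, hK₀1, hK₀⟩ := low1 (norm_nonneg T) ht1 hM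
  -- the operators
  obtain ⟨z, hz⟩ : ∃ z : Fin M → ℂ, z = fun j : Fin M => rt M (j : ℕ) := ⟨_, rfl⟩
  have hz1 : ∀ j, ‖z j‖ = 1 := fun j => by rw [hz]; exact rt_norm M j
  obtain ⟨B, hB⟩ : ∃ B : Fin M → ℕ → A,
    B = fun (j : Fin M) (k : ℕ) => (1 / (k : ℝ)) • Lg (ex (k : ℂ) (z j • S)) := ⟨_, rfl⟩
  have hBn : ∀ j k, 1 ≤ k → ‖B j k‖ ≤ 2 * ‖S‖ := by
    intro j k hk
    have hk0 : (0 : ℝ) < k := by exact_mod_cast hk
    have h1 := (t_B4v A).2.2.2.2 ((k : ℂ) • (z j • S))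
    rw [norm_smul, norm_smul, hz1, one_mul, Complex.norm_natCast] at h1
    rw [hB]
    show ‖(1 / (k : ℝ)) • Lg (ex (k : ℂ) (z j • S))‖ ≤ 2 * ‖S‖
    rw [norm_smul, Real.norm_eq_abs, abs_of_pos (by positivity)]
    calc 1 / (k : ℝ) * ‖Lg (ex (k : ℂ) (z j • S))‖ ≤ 1 / (k : ℝ) * (2 * (k * ‖S‖)) := by
          gcongr
          exact h1
      _ = 2 * ‖S‖ := by field_simp
  have hBsa : ∀ j k, IsSelfAdjoint (B j k) := by
    intro j k
    rw [hB]
    exact IsSelfAdjoint.smul (IsSelfAdjoint.all _) ((t_B4v A).1 _)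
  have hBtr : ∀ j k, τ (B j k) = 0 := by
    intro j k
    apply Complex.ext
    · have h1 : B j k = ((1 / (k : ℝ) : ℝ) : ℂ) • Lg (ex (k : ℂ) (z j • S)) := by
        rw [hB, Complex.coe_smul]
      have h2 := τ.map_smul ((1 / (k : ℝ) : ℝ) : ℂ) (Lg (ex (k : ℂ) (z j • S)))
      have h3 := hB13 A τ hτ ((k : ℂ) • (z j • S))
      have h4 : τ ((k : ℂ) • (z j • S)) = 0 := by
        have h5 := τ.map_smul (k : ℂ) (z j • S)
        have h6 := τ.map_smul (z j) S
        rw [h5, h6, hS0, smul_zero, smul_zero]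
      rw [h4, Complex.zero_re, mul_zero] at h3
      have h5 : (τ (Lg (ex (k : ℂ) (z j • S)))).re = 0 := h3
      rw [h1, h2, smul_eq_mul, Complex.re_ofReal_mul, h5, mul_zero]
      rfl
    · have h1 := hτ.herm (B j k)
      rw [(hBsa j k).star_eq] at h1
      have h2 := congrArg Complex.im h1
      rw [Complex.conj_im] at h2
      show (τ (B j k)).im = 0
      linarith
  have hNN : ∀ (j : Fin M) (k : ℕ), 1 ≤ k → NN τ (ex (k * rt M j) S) = k * n2 τ (B j k) := by
    intro j k hk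
    have hk0 : (0 : ℝ) < k := by exact_mod_cast hk
    have h1 : ex (k * rt M j) S = ex (k : ℂ) (z j • S) := by
      unfold ex
      rw [hz, smul_smul]
    have h2 : n2 τ (B j k) = |1 / (k : ℝ)| * n2 τ (Lg (ex (k : ℂ) (z j • S))) := by
      rw [hB]
      exact hB1.2.2.2.1 _ _
    rw [h1, h2, abs_of_pos (by positivity)]
    unfold NN
    field_simp
  have hlow : ∀ k, K₀ ≤ k → (1 - ‖τ T‖) / 2 ≤ ∑ j, n2 τ (B j k) := by
    intro k hk
    have hk1 : 1 ≤ k := by omega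
    have hk0 : (0 : ℝ) < k := by exact_mod_cast hk1
    have h1 := D7s hB4u t_D1 hD3 hD4 hD6 A τ hτ T S (τ T) hTS k M hk1 hM1
    have h2 := hdet k ((ck k) ^ 2) hk1 (by
      have := Pool.Agent.H270R3.CT.ck_pos k hk1
      positivity)
    have h3 : ∑ j : Fin M, NN τ (ex (k * rt M j) S) = k * ∑ j, n2 τ (B j k) := by
      rw [Finset.mul_sum]
      exact Finset.sum_congr rfl fun j _ => hNN j k hk1
    rw [h3] at h1
    have h4 := hK₀ k hk _ (h2.trans h1)
    exact le_of_mul_le_mul_left h4 hk0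
  -- the subsequence
  have hC : ∀ i : ℕ, ∃ K : ℕ, ∀ j, ∀ k ≥ K, ∀ m ≥ K, n2 τ (B j k - B j m) < (1 / 2 : ℝ) ^ i := by
    intro i
    choose K hK using fun j : Fin M => hB12 A τ hτ (z j • S) ((1 / 2 : ℝ) ^ i) (by positivity)
    refine ⟨∑ j, K j, fun j k hk m hm => ?_⟩
    have h1 : K j ≤ ∑ j, K j :=
      Finset.single_le_sum (fun _ _ => Nat.zero_le _) (Finset.mem_univ j)
    rw [hB]
    exact (hK j).2 k (h1.trans hk) m (h1.trans hm)
  choose K hK using hC
  obtain ⟨φ, hφ⟩ : ∃ φ : ℕ → ℕ, φ = fun n => n + 1 + ∑ i ∈ Finset.range (n + 1), K i := ⟨_, rfl⟩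
  have hφm : StrictMono φ := by
    refine strictMono_nat_of_lt_succ fun n => ?_
    rw [hφ]
    show n + 1 + ∑ i ∈ Finset.range (n + 1), K i < n + 1 + 1 + ∑ i ∈ Finset.range (n + 1 + 1), K i
    rw [Finset.sum_range_succ K (n + 1)]
    omega
  have hφ1 : ∀ i, 1 ≤ φ i := by
    intro i
    rw [hφ]
    show 1 ≤ i + 1 + _
    omega
  have hφi : ∀ i, i ≤ φ i := by
    intro i
    rw [hφ]
    show i ≤ i + 1 + _
    omega
  have hφK : ∀ i, K i ≤ φ i := by
    intro i
    rw [hφ]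
    show K i ≤ i + 1 + ∑ i ∈ Finset.range (i + 1), K i
    have : K i ≤ ∑ i ∈ Finset.range (i + 1), K i :=
      Finset.single_le_sum (fun _ _ => Nat.zero_le _) (Finset.self_mem_range_succ i)
    omega
  have hae : ∀ᵐ y ∂ν, ∀ (j : Fin M) (r : J),
      ∃ x : H, Tendsto (fun i => e y (B j (φ i)) (w r)) atTop (𝓝 x) := by
    rw [ae_all_iff]
    intro j
    rw [ae_all_iff]
    intro r
    have h1 := ae_sum ν (fun i y => ‖e y (B j (φ (i + 1)) - B j (φ i)) (w r)‖)
      (fun _ _ => norm_nonneg _) (fun i => (hn2 _ r).1) (fun i => by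
        refine (hn2 _ r).2.trans ?_
        have h2 := hK i j (φ (i + 1)) ((hφK i).trans (hφm (Nat.lt_succ_self i)).le) (φ i) (hφK i)
        have h3 : 0 ≤ n2 τ (B j (φ (i + 1)) - B j (φ i)) := hB1.2.2.2.2.2.2.2.2.1 _
        calc n2 τ (B j (φ (i + 1)) - B j (φ i)) ^ 2 ≤ ((1 / 2 : ℝ) ^ i) ^ 2 := by gcongr
          _ = (1 / 4) ^ i := by rw [← pow_mul, mul_comm, pow_mul]; norm_num)
    filter_upwards [h1] with y hy
    have h2 : Summable fun i => e y (B j (φ (i + 1)) - B j (φ i)) (w r) := Summable.of_norm hy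
    obtain ⟨s, hs⟩ := h2
    have h3 := hs.tendsto_sum_nat
    refine ⟨s + e y (B j (φ 0)) (w r), ?_⟩
    have h4 : ∀ n, ∑ i ∈ Finset.range n, e y (B j (φ (i + 1)) - B j (φ i)) (w r)
        = e y (B j (φ n)) (w r) - e y (B j (φ 0)) (w r) := by
      intro n
      rw [← Finset.sum_range_sub (fun i => e y (B j (φ i)) (w r))]
      refine Finset.sum_congr rfl fun i _ => ?_
      rw [map_sub]
      rfl
    refine (h3.add_const (e y (B j (φ 0)) (w r))).congr fun n => ?_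
    rw [h4, sub_add_cancel]
  have hen : ∀ y j i, ‖e y (B j (φ i))‖ ≤ 2 * ‖S‖ := fun y j i =>
    (NonUnitalStarAlgHom.norm_apply_le (e y) _).trans (hBn j _ (hφ1 i))
  have heB : ∀ y j i, e y (B j (φ i)) = (1 / (φ i : ℝ)) • Lg (ex (φ i : ℂ) (z j • e y S)) := by
    intro y j i
    have h1 : B j (φ i) = ((1 / (φ i : ℝ) : ℝ) : ℂ) • Lg (ex (φ i : ℂ) (z j • S)) := by
      rw [hB, Complex.coe_smul]
    rw [h1, map_smul, e_Lg, map_smul, Complex.coe_smul]
  by_cases hcase : ∃ j : Fin M, ∀ᵐ y ∂ν, ¬ ∃ c : ℂ, ∀ x : H,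
      Tendsto (fun i => e y (B j (φ i)) x) atTop (𝓝 (c • x))
  · obtain ⟨j, hj⟩ := hcase
    filter_upwards [hae, hj] with y hy hyj
    obtain ⟨X, hX⟩ := strong_lim w hw (fun i => e y (B j (φ i))) (2 * ‖S‖) (hen y j) (hy j)
    have hs : ¬ ∃ c : ℂ, X = c • 1 := by
      rintro ⟨c, hc⟩
      apply hyj
      refine ⟨c, fun x => ?_⟩
      have := hX x
      rw [hc] at this
      simpa using this
    obtain ⟨V, hVc, hVb, hVt, hVi⟩ := hC12 H (z j • e y S) φ hφm hφ1 X
      (fun x => by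
        have h1 := hX x
        simp_rw [heB] at h1
        exact h1) hs
    refine ⟨V, hVc, hVb, hVt, fun R hR x hx => hVi R ?_ x hx⟩
    have hSe : e y S = e y T - τ T • 1 := by rw [hS, map_sub, map_smul, map_one]
    rw [mul_smul_comm, smul_mul_assoc, hSe, mul_sub, sub_mul, hR, mul_smul_comm, smul_mul_assoc,
      mul_one, one_mul]
  · exfalso
    have hc : ∀ j : Fin M, ∃ c : ℂ, ∀ᵐ y ∂ν, ∀ x : H,
        Tendsto (fun i => e y (B j (φ i)) x) atTop (𝓝 (c • x)) := fun j =>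
      (h01 (fun i => B j (φ i)) (2 * ‖S‖) (fun i => hBn j _ (hφ1 i))).resolve_left
        fun h => hcase ⟨j, h⟩
    choose c hc using hc
    have hvv : ⟪v, v⟫_ℂ = 1 := by
      rw [inner_self_eq_norm_sq_to_K, hv]
      simp
    have hc0 : ∀ j, c j = 0 := by
      intro j
      have h1 : Tendsto (fun i => ∫ y, ⟪v, e y (B j (φ i)) v⟫_ℂ ∂ν) atTop
          (𝓝 (∫ _y, c j ∂ν)) := by
        refine tendsto_integral_of_dominated_convergence (fun _ => 2 * ‖S‖)
          (fun i => (htau _).1.aestronglyMeasurable) (integrable_const _)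
          (fun i => Eventually.of_forall fun y => ?_) ?_
        · calc ‖⟪v, e y (B j (φ i)) v⟫_ℂ‖ ≤ ‖v‖ * ‖e y (B j (φ i)) v‖ := norm_inner_le_norm _ _
            _ ≤ ‖v‖ * ((2 * ‖S‖) * ‖v‖) := by
                gcongr
                exact ((e y (B j (φ i))).le_opNorm _).trans (by
                  gcongr
                  exact hen y j i)
            _ = 2 * ‖S‖ := by rw [hv, one_mul, mul_one]
        · filter_upwards [hc j] with y hy
          have h2 : Tendsto (fun i => ⟪v, e y (B j (φ i)) v⟫_ℂ) atTop (𝓝 ⟪v, c j • v⟫_ℂ) :=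
            (tendsto_const_nhds).inner (hy v)
          rwa [inner_smul_right, hvv, mul_one] at h2
      have h2 : ∀ i, ∫ y, ⟪v, e y (B j (φ i)) v⟫_ℂ ∂ν = 0 := fun i => by
        rw [← (htau _).2, hBtr]
      simp only [h2] at h1
      have h3 := tendsto_nhds_unique h1 tendsto_const_nhds
      rw [integral_const] at h3
      simpa using h3
    have hsq : ∀ a : A, n2 τ a ^ 2 = ∫ y, ‖e y a v‖ ^ 2 ∂ν := by
      intro a
      rw [hB1.2.2.2.2.2.2.2.2.2.2, (htau _).2]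
      have h1 : ∀ y, ⟪v, e y (star a * a) v⟫_ℂ = ((‖e y a v‖ ^ 2 : ℝ) : ℂ) := by
        intro y
        rw [map_mul, map_star]
        show ⟪v, star (e y a) (e y a v)⟫_ℂ = _
        rw [ContinuousLinearMap.star_eq_adjoint, ContinuousLinearMap.adjoint_inner_right,
          inner_self_eq_norm_sq_to_K]
        push_cast
        rfl
      simp_rw [h1]
      rw [integral_complex_ofReal, Complex.ofReal_re]
    have htend : ∀ j, Tendsto (fun i => n2 τ (B j (φ i))) atTop (𝓝 0) := by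
      intro j
      have h1 : Tendsto (fun i => ∫ y, ‖e y (B j (φ i)) v‖ ^ 2 ∂ν) atTop
          (𝓝 (∫ _y : Y, (0 : ℝ) ∂ν)) := by
        refine tendsto_integral_of_dominated_convergence (fun _ => (2 * ‖S‖) ^ 2)
          (fun i => ((hmeas _ v).pow_const 2).aestronglyMeasurable) (integrable_const _)
          (fun i => Eventually.of_forall fun y => ?_) ?_
        · rw [Real.norm_eq_abs, abs_of_nonneg (by positivity)]
          have h2 : ‖e y (B j (φ i)) v‖ ≤ 2 * ‖S‖ := by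
            have h3 := (e y (B j (φ i))).le_opNorm v
            rw [hv, mul_one] at h3
            exact h3.trans (hen y j i)
          exact pow_le_pow_left₀ (norm_nonneg _) h2 2
        · filter_upwards [hc j] with y hy
          have h8 := ((hy v).norm).pow 2
          rw [hc0, zero_smul, norm_zero] at h8
          simpa using h8
      rw [integral_zero] at h1
      simp only [← hsq] at h1
      have h2 := h1.sqrt
      rw [Real.sqrt_zero] at h2
      refine h2.congr fun i => ?_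
      exact Real.sqrt_sq (hB1.2.2.2.2.2.2.2.2.1 _)
    have h1 : Tendsto (fun i => ∑ j, n2 τ (B j (φ i))) atTop (𝓝 (∑ _j : Fin M, (0 : ℝ))) :=
      tendsto_finsetSum _ fun j _ => htend j
    rw [Finset.sum_const_zero] at h1
    have h2 : (1 - ‖τ T‖) / 2 ≤ 0 := by
      refine ge_of_tendsto h1 ?_
      filter_upwards [eventually_ge_atTop K₀] with i hi
      exact hlow _ (hi.trans (hφi i))
    linarith

end Pool.Agent.TH322.AC
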