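import Pool.Agent.TH322.AC.Ker
import Pool.Agent.TH322.AC.Abs1
import Pool.Agent.W540.RO.N2

/-!
# Integral families over an amenable group: hyperinvariant subspaces
-/

set_option autoImplicit false
open scoped ComplexConjugate InnerProductSpace Topology BoundedContinuousFunction Pointwise
open MeasureTheory Filter

namespace Pool.Agent.TH322.AC
open Pool.Agent.H712R5.BO Pool.Agent.W611.RO

section
variable {G Ω H : Type} [Group G] [Countable G] [DecidableEq G] [MeasurableSpace Ω] [MulAction G Ω]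
  [NormedAddCommGroup H] [InnerProductSpace ℂ H] [CompleteSpace H]

theorem IntF.mul {b : HilbertBasis G ℂ H} {L : G → unitary (H →L[ℂ] H)} {R ι : Type} [CommRing R]
    {σ : ι → (R →+* ℂ)} {X Y : ι → CF (Ω := Ω) b L} (hX : IntF b L σ X) (hY : IntF b L σ Y) :
    IntF b L σ (fun v => X v * Y v) := by
  obtain ⟨⟨U, hU⟩, hX2⟩ := hX
  obtain ⟨⟨V, hV⟩, hY2⟩ := hY
  have hexp : ∀ (v : ι) (ω : Ω) (i j : G), ⟪b i, ev b L ω (X v * Y v) (b j)⟫_ℂ
      = ∑' l : G, ⟪b i, ev b L ω (X v) (b l)⟫_ℂ * ⟪b l, ev b L ω (Y v) (b j)⟫_ℂ := by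
    intro v ω i j
    rw [map_mul]
    show ⟪b i, ev b L ω (X v) (ev b L ω (Y v) (b j))⟫_ℂ = _
    rw [TR_adj, ← b.tsum_inner_mul_inner]
    refine tsum_congr fun l => ?_
    rw [TR_adj b L (X v) ω (b i) (b l)]
  refine ⟨⟨U * V, fun v ω i j hij => ?_⟩, fun ω i j => ?_⟩
  · rw [hexp]
    have h0 : ∀ l : G, ⟪b i, ev b L ω (X v) (b l)⟫_ℂ * ⟪b l, ev b L ω (Y v) (b j)⟫_ℂ = 0 := by
      intro l
      by_cases h1 : i⁻¹ * l ∈ (U : Set G)
      · by_cases h2 : l⁻¹ * j ∈ (V : Set G)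
        · exfalso
          apply hij
          rw [Finset.coe_mul]
          refine Set.mem_mul.2 ⟨i⁻¹ * l, h1, l⁻¹ * j, h2, ?_⟩
          group
        · rw [hV v ω l j h2, mul_zero]
      · rw [hU v ω i l h1, zero_mul]
    simp_rw [h0]
    exact tsum_zero
  · choose m hm using hX2 ω
    choose m' hm' using hY2 ω
    refine ⟨∑ l ∈ U.image (fun u => i * u), m i l * m' l j, fun v => ?_⟩
    rw [hexp, map_sum, tsum_eq_sum (s := U.image (fun u => i * u))]
    · refine Finset.sum_congr rfl fun l _ => ?_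
      rw [map_mul, hm, hm']
    · intro l hl
      rw [hU v ω i l ?_, zero_mul]
      intro h
      apply hl
      rw [Finset.mem_image]
      exact ⟨i⁻¹ * l, h, by group⟩

omit [DecidableEq G] in
theorem IntF.one (b : HilbertBasis G ℂ H) (L : G → unitary (H →L[ℂ] H)) {R ι : Type} [CommRing R]
    (σ : ι → (R →+* ℂ)) : IntF b L σ (fun _ : ι => (1 : CF (Ω := Ω) b L)) := by
  classical
  have h1 : ∀ (ω : Ω) (i j : G), ⟪b i, ev b L ω (1 : CF (Ω := Ω) b L) (b j)⟫_ℂ
      = if i = j then 1 else 0 := by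
    intro ω i j
    rw [map_one]
    show ⟪b i, b j⟫_ℂ = _
    exact orthonormal_iff_ite.1 b.orthonormal i j
  refine ⟨⟨{1}, fun v ω i j hij => ?_⟩, fun ω i j => ⟨if i = j then 1 else 0, fun v => ?_⟩⟩
  · rw [h1, if_neg]
    rintro rfl
    apply hij
    simp
  · rw [h1]
    split_ifs <;> simp

theorem IntF.pow {b : HilbertBasis G ℂ H} {L : G → unitary (H →L[ℂ] H)} {R ι : Type} [CommRing R]
    {σ : ι → (R →+* ℂ)} {X : ι → CF (Ω := Ω) b L} (hX : IntF b L σ X) (k : ℕ) :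
    IntF b L σ (fun v => X v ^ k) := by
  induction k with
  | zero => simpa using IntF.one b L σ
  | succ k ih =>
    have := ih.mul hX
    simpa only [pow_succ] using this

end

section
variable {A : Type} [CStarAlgebra A]

theorem logdet_mono (τ : A →L[ℂ] ℂ) (hτ : TrSt τ) (X : A) {δ δ' : ℝ} (hδ : 0 < δ)
    (h : δ ≤ δ') : (τ (CFC.log (algebraMap ℝ A δ + star X * X))).re
      ≤ (τ (CFC.log (algebraMap ℝ A δ' + star X * X))).re := by
  let := CStarAlgebra.spectralOrder A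
  have := CStarAlgebra.spectralOrderedRing A
  refine (t_D1 A τ hτ).2 _ _ ?_ ?_
  · exact IsStrictlyPositive.add_nonneg (isStrictlyPositive_algebraMap hδ) (star_mul_self_nonneg _)
  · exact add_le_add (algebraMap_mono A h) le_rfl

theorem logdet_le (τ : A →L[ℂ] ℂ) (hτ : TrSt τ) (X : A) {δ C : ℝ} (hδ : 0 < δ)
    (hC : ‖X‖ ≤ C) : (τ (CFC.log (algebraMap ℝ A δ + star X * X))).re ≤ Real.log (δ + C ^ 2) := by
  have h0 : 0 ≤ C := (norm_nonneg X).trans hC
  rw [log_cfc X hδ]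
  have hsa : IsSelfAdjoint (star X * X) := IsSelfAdjoint.star_mul_self X
  have hc2 : ContinuousOn (fun x : ℝ => Real.log (δ + x)) (spectrum ℝ (star X * X)) :=
    (cont_log hδ _).mono (spec_le X hC)
  let := CStarAlgebra.spectralOrder A
  have := CStarAlgebra.spectralOrderedRing A
  have h1 : cfc (fun x : ℝ => Real.log (δ + x)) (star X * X)
      ≤ algebraMap ℝ A (Real.log (δ + C ^ 2)) := by
    rw [← cfc_const (Real.log (δ + C ^ 2)) (star X * X) hsa]
    refine cfc_mono (fun x hx => ?_) hc2 (by fun_prop)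
    have h2 := spec_le X hC hx
    exact Real.log_le_log (by linarith [h2.1]) (by linarith [h2.2])
  have h3 := (t_D1 A τ hτ).1 _ _ h1
  rwa [D7_algMap τ hτ] at h3

theorem logdet_smul (τ : A →L[ℂ] ℂ) (hτ : TrSt τ) (X : A) {δ l : ℝ} (hδ : 0 < δ) (hl : 0 < l)
    (k : ℕ) :
    (τ (CFC.log (algebraMap ℝ A δ + star (((l : ℂ) • X) ^ k) * ((l : ℂ) • X) ^ k))).re
      = 2 * k * Real.log l
        + (τ (CFC.log (algebraMap ℝ A (δ / (l ^ 2) ^ k) + star (X ^ k) * X ^ k))).re := by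
  let := CStarAlgebra.spectralOrder A
  have := CStarAlgebra.spectralOrderedRing A
  have hlk : 0 < (l ^ 2) ^ k := by positivity
  have e1 : algebraMap ℝ A δ + star (((l : ℂ) • X) ^ k) * ((l : ℂ) • X) ^ k
      = ((l ^ 2) ^ k) • (algebraMap ℝ A (δ / (l ^ 2) ^ k) + star (X ^ k) * X ^ k) := by
    rw [smul_add, smul_pow, star_smul, smul_mul_smul_comm]
    congr 1
    · rw [Algebra.algebraMap_eq_smul_one, Algebra.algebraMap_eq_smul_one, smul_smul,
        mul_div_cancel₀ _ hlk.ne']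
    · have h2 : star ((l : ℂ) ^ k) * (l : ℂ) ^ k = (((l ^ 2) ^ k : ℝ) : ℂ) := by
        have h3 : star ((l : ℂ) ^ k) = (l : ℂ) ^ k := by
          rw [star_pow]
          congr 1
          exact Complex.conj_ofReal l
        rw [h3]
        push_cast
        ring
      rw [h2, Complex.coe_smul]
  have hpos : IsStrictlyPositive (algebraMap ℝ A (δ / (l ^ 2) ^ k) + star (X ^ k) * X ^ k) :=
    IsStrictlyPositive.add_nonneg (isStrictlyPositive_algebraMap (by positivity))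
      (star_mul_self_nonneg _)
  rw [e1, CFC.log_smul' _ hlk hpos, map_add, Complex.add_re, D7_algMap τ hτ]
  congr 1
  rw [Real.log_pow, Real.log_pow]
  push_cast
  ring

end

section
variable {G Ω H : Type} [Group G] [Countable G] [DecidableEq G] [MeasurableSpace Ω] [MulAction G Ω]
  [NormedAddCommGroup H] [InnerProductSpace ℂ H] [CompleteSpace H]

/-- an integral family with small trace: nontrivial hyperinvariant subspaces or zero -/
theorem main_int (hF : Fol G) (P : Measure Ω) [IsProbabilityMeasure P] (b : HilbertBasis G ℂ H)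
    (L : G → unitary (H →L[ℂ] H)) (hL : Reg b L) (herg : Erg G P) {R ι : Type} [CommRing R]
    [Fintype ι] [DecidableEq ι] (σ : ι → (R →+* ℂ)) (w : ι → ℕ)
    (hinj : ∀ v, Function.Injective (σ v)) (hN : ∀ m : R, m ≠ 0 → 1 ≤ ∏ v, ‖σ v m‖ ^ w v)
    (v₀ : ι) (hw : 1 ≤ w v₀) (X : ι → CF (Ω := Ω) b L) (hX : IntF b L σ X)
    (hsmall : ‖tau P b L (X v₀)‖ ^ (w v₀)
      * ∏ v ∈ Finset.univ.erase v₀, (1 + ‖X v‖) ^ (w v) < 1) :
    (∀ᵐ ω ∂P, HasHyp (ev b L ω (X v₀))) ∨ (∀ᵐ ω ∂P, ev b L ω (X v₀) = 0) := by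
  have hτ : TrSt (tau P b L) := t_TR G Ω H P b L hL herg.mp
  rcases ker_dich P b L hL herg (X v₀) with h | h | h
  · exact Or.inl h
  swap
  · exact Or.inr h
  left
  -- the determinant inequality for the powers
  have hdet : ∀ (k : ℕ) (δ : ℝ), 0 < δ → 0 ≤ ∑ v, (w v : ℝ) *
      (tau P b L (CFC.log (algebraMap ℝ (CF (Ω := Ω) b L) δ + star (X v ^ k) * X v ^ k))).re := by
    intro k δ hδ
    have hXk := hX.pow k
    refine logdet_nonneg (tau P b L) hτ σ w hinj hN v₀ (fun v => ‖X v ^ k‖) (fun v => X v ^ k)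
      (fun v => le_rfl) (PP_of_fol hF P b L hL herg.mp σ (fun v => X v ^ k) hXk) ?_ hδ
    intro ε hε
    refine kerpoly P b L (X v₀ ^ k) ?_ ε hε
    filter_upwards [h] with ω hω x hx
    rw [map_pow] at hx
    induction k generalizing x with
    | zero => simpa using hx
    | succ k ih =>
      rw [pow_succ'] at hx
      exact ih (hX.pow k) x (hω _ hx)
  -- scaling
  set Pr : ℝ := ∏ v ∈ Finset.univ.erase v₀, (1 + ‖X v‖) ^ (w v) with hPr
  have hfac : ∀ v, (1 : ℝ) ≤ 1 + ‖X v‖ := fun v => by linarith [norm_nonneg (X v)]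
  have hPr1 : 1 ≤ Pr := by
    rw [hPr]
    have : ∏ _v ∈ Finset.univ.erase v₀, (1 : ℝ)
        ≤ ∏ v ∈ Finset.univ.erase v₀, (1 + ‖X v‖) ^ (w v) :=
      Finset.prod_le_prod (fun _ _ => zero_le_one) fun v _ => one_le_pow₀ (hfac v)
    simpa using this
  have hPr0 : 0 < Pr := by linarith
  have hw0 : (0 : ℝ) < w v₀ := by exact_mod_cast hw
  set κ : ℝ := Real.log Pr / w v₀ with hκ
  have hκ2 : (w v₀ : ℝ) * κ = Real.log Pr := by rw [hκ]; field_simp
  have hl0 : 0 < Real.exp κ := Real.exp_pos κ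
  have hlw : Real.exp κ ^ (w v₀) = Pr := by
    rw [← Real.exp_nat_mul, hκ2, Real.exp_log hPr0]
  have hsmall2 : ‖tau P b L ((Real.exp κ : ℂ) • X v₀)‖ < 1 := by
    have h1 : ‖tau P b L ((Real.exp κ : ℂ) • X v₀)‖ = Real.exp κ * ‖tau P b L (X v₀)‖ := by
      rw [map_smul, smul_eq_mul, norm_mul]
      congr 1
      have : (Real.exp κ : ℂ) = ((Real.exp κ : ℝ) : ℂ) := rfl
      rw [Complex.norm_real, Real.norm_eq_abs, abs_of_pos hl0]
    rw [h1]
    by_contra hc
    rw [not_lt] at hc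
    have h2 := one_le_pow₀ hc (n := w v₀)
    rw [mul_pow, hlw, mul_comm] at h2
    linarith
  have hdet2 : ∀ (k : ℕ) (δ : ℝ), 1 ≤ k → 0 < δ →
      0 ≤ (tau P b L (CFC.log (algebraMap ℝ (CF (Ω := Ω) b L) δ
        + star (((Real.exp κ : ℂ) • X v₀) ^ k) * ((Real.exp κ : ℂ) • X v₀) ^ k))).re := by
    intro k δ hk hδ
    have h0 := logdet_smul (tau P b L) hτ (X v₀) hδ hl0 k
    have h0' : ((Real.exp κ : ℝ) : ℂ) = (Real.exp κ : ℂ) := rfl
    rw [h0', Real.log_exp] at h0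
    rw [h0]
    have hlk : 0 < (Real.exp κ ^ 2) ^ k := by positivity
    set δ₁ : ℝ := min (δ / (Real.exp κ ^ 2) ^ k) 1 with hδ₁
    have hδ₁0 : 0 < δ₁ := lt_min (by positivity) one_pos
    have h1 := logdet_mono (tau P b L) hτ (X v₀ ^ k) hδ₁0 (min_le_left _ _ :
      δ₁ ≤ δ / (Real.exp κ ^ 2) ^ k)
    have h2 := hdet k δ₁ hδ₁0
    rw [← Finset.add_sum_erase _ _ (Finset.mem_univ v₀)] at h2
    have h3 : ∑ v ∈ Finset.univ.erase v₀, (w v : ℝ) *
        (tau P b L (CFC.log (algebraMap ℝ (CF (Ω := Ω) b L) δ₁ + star (X v ^ k) * X v ^ k))).re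
        ≤ 2 * k * Real.log Pr := by
      have h4 : Real.log Pr = ∑ v ∈ Finset.univ.erase v₀, (w v : ℝ) * Real.log (1 + ‖X v‖) := by
        rw [hPr, Real.log_prod (fun v _ => (pow_pos (by linarith [hfac v]) _).ne')]
        exact Finset.sum_congr rfl fun v _ => Real.log_pow _ _
      rw [h4, Finset.mul_sum]
      refine Finset.sum_le_sum fun v _ => ?_
      have h5 := logdet_le (tau P b L) hτ (X v ^ k) hδ₁0 (C := ‖X v‖ ^ k)
        (norm_pow_le' _ (by omega))
      have h6 : Real.log (δ₁ + (‖X v‖ ^ k) ^ 2) ≤ 2 * k * Real.log (1 + ‖X v‖) := by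
        have h7 : δ₁ + (‖X v‖ ^ k) ^ 2 ≤ (1 + ‖X v‖) ^ (k * 2) := by
          have h8 := pow_add_pow_le (zero_le_one : (0 : ℝ) ≤ 1) (norm_nonneg (X v))
            (n := k * 2) (by omega)
          rw [one_pow] at h8
          rw [← pow_mul]
          have := min_le_right (δ / (Real.exp κ ^ 2) ^ k) 1
          linarith
        have h9 := Real.log_le_log (by positivity) h7
        rw [Real.log_pow] at h9
        push_cast at h9
        linarith
      calc (w v : ℝ) * (tau P b L (CFC.log (algebraMap ℝ (CF (Ω := Ω) b L) δ₁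
            + star (X v ^ k) * X v ^ k))).re ≤ (w v : ℝ) * (2 * k * Real.log (1 + ‖X v‖)) :=
            mul_le_mul_of_nonneg_left (h5.trans h6) (Nat.cast_nonneg _)
        _ = 2 * k * ((w v : ℝ) * Real.log (1 + ‖X v‖)) := by ring
    rw [← hκ2] at h3
    have h10 : 0 ≤ (w v₀ : ℝ) * (2 * k * κ + (tau P b L (CFC.log (algebraMap ℝ
        (CF (Ω := Ω) b L) δ₁ + star (X v₀ ^ k) * X v₀ ^ k))).re) := by
      nlinarith
    have h11 := nonneg_of_mul_nonneg_right h10 hw0
    linarith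
  have hmain := t_ABS1 Ω P G H (CF (Ω := Ω) b L) (tau P b L) (fun ω => ev b L ω) (fun k => b k) (b 1)
    hτ (b.orthonormal.1 1) (Pool.Agent.W253.RO.total b)
    (fun A => (Pool.Agent.W540.RO.t_N2 G Ω H P b L hL herg.mp A).1)
    (fun A => ⟨ev_int P b L A _ _, tau_apply P b L A⟩)
    (fun A k => ⟨((Pool.Agent.W540.RO.t_N2 G Ω H P b L hL herg.mp A).2 k).1,
      ((Pool.Agent.W540.RO.t_N2 G Ω H P b L hL herg.mp A).2 k).2.le⟩)
    (fun B R hB => Pool.Agent.W545.RO.t_ERG G Ω H P b L hL herg B R hB)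
    ((Real.exp κ : ℂ) • X v₀) hsmall2 hdet2
  filter_upwards [hmain] with ω hω
  have h1 : ev b L ω ((Real.exp κ : ℂ) • X v₀) = (Real.exp κ : ℂ) • ev b L ω (X v₀) := by
    rw [map_smul]
  rw [h1] at hω
  exact Pool.Agent.W253.RO.hasHyp_of_smul _ _ hω

end

end Pool.Agent.TH322.AC
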