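import Pool.Agent.TH322.AC.Asm
import Pool.Agent.W611.RO.Exist

/-!
# Matrix coefficients: reduction to scalar coefficients over `G × ℤ/d`
-/

set_option autoImplicit false
open scoped ComplexConjugate InnerProductSpace Topology ENNReal
open MeasureTheory Filter

namespace Pool.Agent.TH322.AC
open Pool.Agent.W611.RO

section
variable (G Ω : Type) [Group G] [MulAction G Ω] (d : ℕ) [NeZero d]

/-- the group `G × ℤ/d` -/
abbrev Gd : Type := G × Multiplicative (Fin d)

/-- the action of `G × ℤ/d` on `Ω × ℤ/d` -/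
instance actd : MulAction (G × Multiplicative (Fin d)) (Ω × Fin d) where
  smul g x := (g.1 • x.1, x.2 + Multiplicative.toAdd g.2)
  one_smul x := by
    show ((1 : G) • x.1, x.2 + Multiplicative.toAdd (1 : Multiplicative (Fin d))) = x
    rw [one_smul, toAdd_one, add_zero]
  mul_smul g h x := by
    show ((g.1 * h.1) • x.1, x.2 + Multiplicative.toAdd (g.2 * h.2))
      = (g.1 • h.1 • x.1, x.2 + Multiplicative.toAdd h.2 + Multiplicative.toAdd g.2)
    rw [mul_smul, toAdd_mul]
    congr 1
    abel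

theorem actd_def (g : G × Multiplicative (Fin d)) (x : Ω × Fin d) :
    g • x = (g.1 • x.1, x.2 + Multiplicative.toAdd g.2) := rfl

end

/-- the uniform probability on `ℤ/d` -/
noncomputable def unif (d : ℕ) : Measure (Fin d) := (d : ℝ≥0∞)⁻¹ • Measure.count

instance (d : ℕ) [NeZero d] : IsProbabilityMeasure (unif d) := by
  refine ⟨?_⟩
  rw [unif, Measure.smul_apply, Measure.count_univ, smul_eq_mul]
  simp only [ENat.card_eq_coe_fintype_card, Fintype.card_fin]
  exact ENNReal.inv_mul_cancel (by exact_mod_cast NeZero.ne d) (ENNReal.natCast_ne_top d)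

theorem unif_pos (d : ℕ) [NeZero d] (t : Fin d) : unif d {t} ≠ 0 := by
  rw [unif, Measure.smul_apply, Measure.count_singleton, smul_eq_mul, mul_one]
  exact ENNReal.inv_ne_zero.2 (ENNReal.natCast_ne_top d)

theorem unif_mp (d : ℕ) [NeZero d] (s : Fin d) :
    MeasurePreserving (fun t : Fin d => t + s) (unif d) (unif d) := by
  refine ⟨measurable_from_top, ?_⟩
  ext B hB
  rw [Measure.map_apply measurable_from_top hB, unif, Measure.smul_apply, Measure.smul_apply]
  congr 1
  have h1 : (fun t : Fin d => t + s) ⁻¹' B = (Equiv.addRight s) ⁻¹' B := rfl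
  rw [h1, ← Equiv.image_symm_eq_preimage]
  exact Measure.count_injective_image (Equiv.injective _) _

theorem erg_d (G Ω : Type) [Group G] [MeasurableSpace Ω] [MulAction G Ω] (d : ℕ) [NeZero d]
    (P : Measure Ω) [IsProbabilityMeasure P] (herg : Erg G P) :
    Erg (G × Multiplicative (Fin d)) (P.prod (unif d)) := by
  refine ⟨fun g => ?_, fun B hB hinv => ?_⟩
  · exact (herg.mp g.1).prod (unif_mp d (Multiplicative.toAdd g.2))
  · -- `B = B₀ × ℤ/d`
    set B₀ : Set Ω := {ω | (ω, (0 : Fin d)) ∈ B} with hB₀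
    have hB₀m : MeasurableSet B₀ := measurable_prodMk_right hB
    have h1 : ∀ (ω : Ω) (t : Fin d), (ω, t) ∈ B ↔ ω ∈ B₀ := by
      intro ω t
      have h2 := hinv (1, Multiplicative.ofAdd t)
      have h3 : ((ω, (0 : Fin d)) ∈ (fun x : Ω × Fin d =>
          ((1 : G), Multiplicative.ofAdd t) • x) ⁻¹' B) ↔ (ω, (0 : Fin d)) ∈ B := by rw [h2]
      have h4 : ((1 : G), Multiplicative.ofAdd t) • (ω, (0 : Fin d)) = (ω, t) := by
        rw [actd_def]
        simp
      rw [Set.mem_preimage, h4] at h3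
      exact h3
    have hBe : B = B₀ ×ˢ (Set.univ : Set (Fin d)) := by
      ext ⟨ω, t⟩
      rw [h1, Set.mem_prod]
      simp
    have hBc : Bᶜ = B₀ᶜ ×ˢ (Set.univ : Set (Fin d)) := by
      ext ⟨ω, t⟩
      rw [Set.mem_compl_iff, h1, Set.mem_prod]
      simp
    have hinv0 : ∀ g : G, (fun ω : Ω => g • ω) ⁻¹' B₀ = B₀ := by
      intro g
      ext ω
      have h2 := hinv (g, 1)
      have h3 : ((ω, (0 : Fin d)) ∈ (fun x : Ω × Fin d =>
          (g, (1 : Multiplicative (Fin d))) • x) ⁻¹' B) ↔ (ω, (0 : Fin d)) ∈ B := by rw [h2]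
      have h4 : (g, (1 : Multiplicative (Fin d))) • (ω, (0 : Fin d)) = (g • ω, 0) := by
        rw [actd_def]
        simp
      rw [Set.mem_preimage, h4] at h3
      exact h3
    rcases herg.erg B₀ hB₀m hinv0 with h | h
    · left
      rw [hBe, Measure.prod_prod, h, zero_mul]
    · right
      rw [hBc, Measure.prod_prod, h, zero_mul]

theorem fol_d (G : Type) [Group G] [DecidableEq G] (d : ℕ) [NeZero d] (hF : Fol G) :
    Fol (G × Multiplicative (Fin d)) := by
  classical
  intro K ε hε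
  obtain ⟨S, hS, hSK⟩ := hF (K.image Prod.fst) ε hε
  refine ⟨S ×ˢ (Finset.univ : Finset (Multiplicative (Fin d))), hS.product Finset.univ_nonempty,
    fun g hg => ?_⟩
  have h1 : ((S ×ˢ (Finset.univ : Finset (Multiplicative (Fin d)))).filter
      fun i => i * g ∉ S ×ˢ (Finset.univ : Finset (Multiplicative (Fin d))))
      = (S.filter fun i => i * g.1 ∉ S) ×ˢ (Finset.univ : Finset (Multiplicative (Fin d))) := by
    ext ⟨i, u⟩
    simp [Finset.mem_filter, Finset.mem_product]
  rw [h1, Finset.card_product, Finset.card_product]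
  push_cast
  have h2 := hSK g.1 (Finset.mem_image_of_mem _ hg)
  rw [← mul_assoc]
  exact mul_le_mul_of_nonneg_right h2 (Nat.cast_nonneg _)

/-- the main theorem on `ℓ²(G × {0,…,d-1})` -/
theorem t_MAT (G Ω : Type) [Group G] [Countable G] [DecidableEq G] [MeasurableSpace Ω]
    [MulAction G Ω] (P : Measure Ω) [IsProbabilityMeasure P] (herg : Erg G P) (hF : Fol G)
    (d : ℕ) [NeZero d] (F : Finset G) (A : G → Ω → Matrix (Fin d) (Fin d) ℂ)
    (hAm : ∀ g k l, Measurable fun ω => A g ω k l)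
    (hfin : ∀ g k l, (Set.range fun ω => A g ω k l).Finite)
    (halg : ∀ g ω k l, IsAlgebraic ℚ (A g ω k l)) :
    ∃ T : Ω → (L2 (G × Fin d) →L[ℂ] L2 (G × Fin d)),
      (∀ (ω : Ω) (f : L2 (G × Fin d)) (i : G) (k : Fin d), (T ω f : G × Fin d → ℂ) (i, k)
        = ∑ g ∈ F, ∑ l, A g (i⁻¹ • ω) k l * (f : G × Fin d → ℂ) (i * g, l)) ∧
      ((∃ c : ℂ, ∀ᵐ ω ∂P, T ω = c • 1) ∨ ∀ᵐ ω ∂P, HasHyp (T ω)) := by
  classical
  let G' : Type := G × Multiplicative (Fin d)
  let F' : Finset G' := F ×ˢ (Finset.univ : Finset (Multiplicative (Fin d)))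
  let a : G' → (Ω × Fin d) → ℂ := fun g x =>
    if g ∈ F' then A g.1 x.1 (-x.2) (-x.2 + Multiplicative.toAdd g.2) else 0
  have ham : ∀ g, Measurable (a g) := by
    intro g
    by_cases hg : g ∈ F'
    · have h1 : a g = fun x : Ω × Fin d => A g.1 x.1 (-x.2) (-x.2 + Multiplicative.toAdd g.2) := by
        funext x
        exact if_pos hg
      rw [h1]
      have h2 : Measurable (fun x : Fin d × Ω =>
          A g.1 x.2 (-x.1) (-x.1 + Multiplicative.toAdd g.2)) :=
        measurable_from_prod_countable_right fun t => hAm g.1 (-t) (-t + Multiplicative.toAdd g.2)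
      exact h2.comp measurable_swap
    · have h1 : a g = fun _ => 0 := by
        funext x
        exact if_neg hg
      rw [h1]
      exact measurable_const
  have hfin' : ∀ g, (Set.range (a g)).Finite := by
    intro g
    refine Set.Finite.subset ((Set.finite_iUnion fun t : Fin d =>
      hfin g.1 (-t) (-t + Multiplicative.toAdd g.2)).union (Set.finite_singleton (0 : ℂ))) ?_
    rintro _ ⟨x, rfl⟩
    by_cases hg : g ∈ F'
    · left
      have h1 : a g x = A g.1 x.1 (-x.2) (-x.2 + Multiplicative.toAdd g.2) := if_pos hg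
      rw [h1]
      exact Set.mem_iUnion.2 ⟨x.2, x.1, rfl⟩
    · right
      exact if_neg hg
  have halg' : ∀ g x, IsAlgebraic ℚ (a g x) := by
    intro g x
    by_cases hg : g ∈ F'
    · have h1 : a g x = A g.1 x.1 (-x.2) (-x.2 + Multiplicative.toAdd g.2) := if_pos hg
      rw [h1]
      exact halg _ _ _ _
    · have h1 : a g x = 0 := if_neg hg
      rw [h1]
      exact isAlgebraic_zero
  -- bounds
  choose B hB using fun g => bdd_of_fin (hfin' g)
  let R : G' → ℝ := fun g => if g ∈ F' then max (B g) 0 else 0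
  have hR0 : ∀ g, 0 ≤ R g := by
    intro g
    show 0 ≤ (if g ∈ F' then max (B g) 0 else 0)
    split_ifs
    · exact le_max_right _ _
    · exact le_rfl
  have haR : ∀ g x, ‖a g x‖ ≤ R g := by
    intro g x
    by_cases hg : g ∈ F'
    · have h1 : R g = max (B g) 0 := if_pos hg
      rw [h1]
      exact (hB g x).trans (le_max_left _ _)
    · have h1 : a g x = 0 := if_neg hg
      rw [h1, norm_zero]
      exact hR0 g
  have hRs : Summable R := summable_of_ne_finset_zero (s := F') fun g hg => if_neg hg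
  choose T' hT' using fun x : Ω × Fin d => exists_op Pool.Agent.W515.RO.t_UNI
    (fun (g : G') (i : G') => a g (i⁻¹ • x)) R hR0 hRs (fun g i => haR g _)
  -- the formula for `T'`
  have hT'f : ∀ (x : Ω × Fin d) (f : L2 G') (i : G'), (T' x f : G' → ℂ) i
      = ∑ g ∈ F', a g (i⁻¹ • x) * (f : G' → ℂ) (i * g) := by
    intro x f i
    rw [hT']
    refine tsum_eq_sum fun g hg => ?_
    have h1 : a g (i⁻¹ • x) = 0 := if_neg hg
    rw [h1, zero_mul]
  have hT'b : ∀ (x : Ω × Fin d) (k : G'), T' x (stb G' k)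
      = ∑ g ∈ F', a g ((g * k⁻¹) • x) • stb G' (k * g⁻¹) := by
    intro x k
    apply lp.ext
    funext i
    rw [hT'f]
    have h1 : ((∑ g ∈ F', a g ((g * k⁻¹) • x) • stb G' (k * g⁻¹) : L2 G') : G' → ℂ) i
        = ∑ g ∈ F', a g ((g * k⁻¹) • x) * ((stb G' (k * g⁻¹) : L2 G') : G' → ℂ) i := by
      rw [← crd_apply, map_sum]
      refine Finset.sum_congr rfl fun g _ => ?_
      rw [map_smul, crd_apply, smul_eq_mul]
    rw [h1]
    refine Finset.sum_congr rfl fun g _ => ?_
    rw [stb_apply, stb_apply]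
    by_cases h : i * g = k
    · have h' : i = k * g⁻¹ := by rw [← h, mul_inv_cancel_right]
      have e2 : g * k⁻¹ = i⁻¹ := by rw [h', mul_inv_rev, inv_inv]
      rw [if_pos h', if_pos h, e2]
    · have h' : i ≠ k * g⁻¹ := by
        rintro rfl
        apply h
        rw [inv_mul_cancel_right]
      rw [if_neg h', if_neg h]
      simp
  have hmain := t_ALG G' (Ω × Fin d) (L2 G') (P.prod (unif d)) (stb G') (erg_d G Ω d P herg)
    (fol_d G d hF) F' a ham hfin' halg' T' hT'b
  refine ⟨fun ω => T' (ω, 0), fun ω f i k => ?_, ?_⟩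
  · have h1 := hT'f (ω, 0) f (i, Multiplicative.ofAdd k)
    have h2 : (T' (ω, 0) f : G' → ℂ) (i, Multiplicative.ofAdd k)
        = (T' (ω, 0) f : G × Fin d → ℂ) (i, k) := rfl
    refine h2.symm.trans (h1.trans ?_)
    show ∑ g ∈ F ×ˢ (Finset.univ : Finset (Multiplicative (Fin d))), _ = _
    rw [Finset.sum_product]
    refine Finset.sum_congr rfl fun g hg => ?_
    have h3 : ∀ s : Multiplicative (Fin d),
        a (g, s) (((i, Multiplicative.ofAdd k) : G')⁻¹ • ((ω, 0) : Ω × Fin d))
          * (f : G' → ℂ) (((i, Multiplicative.ofAdd k) : G') * (g, s))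
        = A g (i⁻¹ • ω) k (k + Multiplicative.toAdd s)
          * (f : G × Fin d → ℂ) (i * g, k + Multiplicative.toAdd s) := by
      intro s
      have h4 : ((i, Multiplicative.ofAdd k) : G')⁻¹ • ((ω, 0) : Ω × Fin d) = (i⁻¹ • ω, -k) := by
        rw [actd_def]
        simp
      have h5 : a (g, s) (i⁻¹ • ω, -k) = A g (i⁻¹ • ω) k (k + Multiplicative.toAdd s) := by
        have h6 : a (g, s) (i⁻¹ • ω, -k)
            = A g (i⁻¹ • ω) (- -k) (- -k + Multiplicative.toAdd s) :=
          if_pos (Finset.mem_product.2 ⟨hg, Finset.mem_univ _⟩)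
        rw [h6, neg_neg]
      rw [h4, h5]
      rfl
    rw [Finset.sum_congr rfl fun s _ => h3 s]
    exact Fintype.sum_equiv (Multiplicative.toAdd.trans (Equiv.addLeft k)) _ _ fun s => rfl
  · have hae : ∀ {p : Ω × Fin d → Prop}, (∀ᵐ x ∂(P.prod (unif d)), p x) → ∀ᵐ ω ∂P, p (ω, 0) := by
      intro p hp
      have h1 := Measure.ae_ae_of_ae_prod hp
      filter_upwards [h1] with ω hω
      by_contra hc
      have h2 : unif d {t | ¬ p (ω, t)} = 0 := hω
      have h3 : unif d {(0 : Fin d)} ≤ unif d {t | ¬ p (ω, t)} :=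
        measure_mono (by rintro _ rfl; exact hc)
      rw [h2] at h3
      exact unif_pos d 0 (nonpos_iff_eq_zero.1 h3)
    rcases hmain with ⟨c, hc⟩ | h
    · exact Or.inl ⟨c, hae hc⟩
    · exact Or.inr (hae h)

end Pool.Agent.TH322.AC
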