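import Mathlib

/-!
# Finite matrices: minors and `det (δ + |B|²)`
-/

set_option autoImplicit false
open scoped ComplexConjugate ComplexOrder Matrix
open Matrix Finset

namespace Pool.Agent.TH322.AC

section
variable {κ : Type} [Fintype κ]

/-- a matrix of rank `r` has a nonzero minor of size `r` -/
theorem exists_minor (A : Matrix κ κ ℂ) : ∃ (I J : Fin A.rank → κ), Function.Injective I ∧
    Function.Injective J ∧ (A.submatrix I J).det ≠ 0 := by
  obtain ⟨κ₁, a, ha, hsp, hli⟩ := exists_linearIndependent' ℂ A.row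
  have : Finite κ₁ := Finite.of_injective a ha
  have : Fintype κ₁ := Fintype.ofFinite κ₁
  have hc1 : Fintype.card κ₁ = A.rank := by
    rw [rank_eq_finrank_span_row, ← hsp]
    have := linearIndependent_iff_card_eq_finrank_span.mp hli
    rw [this, Set.finrank]
  let e₁ : Fin A.rank ≃ κ₁ := (Fintype.equivFinOfCardEq hc1).symm
  let I : Fin A.rank → κ := a ∘ e₁
  have hI : Function.Injective I := ha.comp e₁.injective
  have hliI : LinearIndependent ℂ (A.submatrix I id).row := by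
    have := hli.comp e₁ e₁.injective
    exact this
  have hr1 : (A.submatrix I id).rank = A.rank := by
    rw [hliI.rank_matrix, Fintype.card_fin]
  obtain ⟨κ₂, c, hc, hsp2, hli2⟩ := exists_linearIndependent' ℂ (A.submatrix I id).col
  have : Finite κ₂ := Finite.of_injective c hc
  have : Fintype κ₂ := Fintype.ofFinite κ₂
  have hc2 : Fintype.card κ₂ = A.rank := by
    rw [← hr1, rank_eq_finrank_span_cols, ← hsp2]
    have := linearIndependent_iff_card_eq_finrank_span.mp hli2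
    rw [this, Set.finrank]
  let e₂ : Fin A.rank ≃ κ₂ := (Fintype.equivFinOfCardEq hc2).symm
  let J : Fin A.rank → κ := c ∘ e₂
  have hJ : Function.Injective J := hc.comp e₂.injective
  refine ⟨I, J, hI, hJ, ?_⟩
  have hliJ : LinearIndependent ℂ (A.submatrix I J).col := by
    have := hli2.comp e₂ e₂.injective
    exact this
  have hu := linearIndependent_cols_iff_isUnit.1 hliJ
  exact ((Matrix.isUnit_iff_isUnit_det _).1 hu).ne_zero

end

section
variable {n : Type} [Fintype n] [DecidableEq n]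

/-- `det (δ + P)` for hermitian `P` -/
theorem det_add_herm {P : Matrix n n ℂ} (hP : P.IsHermitian) (δ : ℝ) :
    ((δ : ℂ) • (1 : Matrix n n ℂ) + P).det = ((∏ i, (δ + hP.eigenvalues i) : ℝ) : ℂ) := by
  have h1 := Matrix.eval_charpoly P (-(δ : ℂ))
  rw [hP.charpoly_eq, Polynomial.eval_prod] at h1
  have h2 : (scalar n) (-(δ : ℂ)) - P = -((δ : ℂ) • (1 : Matrix n n ℂ) + P) := by
    rw [Matrix.scalar_apply, ← Matrix.smul_one_eq_diagonal, neg_smul, neg_add]
    rfl
  rw [h2, Matrix.det_neg] at h1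
  have h3 : ∀ i, Polynomial.eval (-(δ : ℂ)) (Polynomial.X - Polynomial.C ((hP.eigenvalues i : ℝ) : ℂ))
      = (-1) * (((δ + hP.eigenvalues i : ℝ)) : ℂ) := by
    intro i
    simp
    ring
  have h4 : (∏ i, Polynomial.eval (-(δ : ℂ)) (Polynomial.X - Polynomial.C ((hP.eigenvalues i : ℝ) : ℂ)))
      = (-1) ^ Fintype.card n * ((∏ i, (δ + hP.eigenvalues i) : ℝ) : ℂ) := by
    rw [Finset.prod_congr rfl fun i _ => h3 i, Finset.prod_mul_distrib, Finset.prod_const,
      Finset.card_univ]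
    push_cast
    rfl
  have h5 : ((-1 : ℂ)) ^ Fintype.card n * ((∏ i, (δ + hP.eigenvalues i) : ℝ) : ℂ)
      = (-1) ^ Fintype.card n * ((δ : ℂ) • (1 : Matrix n n ℂ) + P).det := by
    rw [← h4]
    exact h1
  have h6 : ((-1 : ℂ)) ^ Fintype.card n ≠ 0 := pow_ne_zero _ (by norm_num)
  exact (mul_left_cancel₀ h6 h5).symm

/-- `det (1 + P) ≥ 1` for positive semidefinite `P` -/
theorem one_le_det_one_add {P : Matrix n n ℂ} (hP : P.PosSemidef) : 1 ≤ ‖(1 + P).det‖ := by
  have h := det_add_herm hP.isHermitian 1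
  rw [Complex.ofReal_one, one_smul] at h
  rw [h, Complex.norm_real]
  refine le_trans ?_ (le_abs_self _)
  have : ∀ i ∈ (Finset.univ : Finset n), 1 ≤ 1 + hP.isHermitian.eigenvalues i := fun i _ => by
    have := hP.eigenvalues_nonneg i
    linarith
  calc (1 : ℝ) = ∏ _i : n, (1 : ℝ) := by simp
    _ ≤ ∏ i, (1 + hP.isHermitian.eigenvalues i) :=
        Finset.prod_le_prod (fun _ _ => zero_le_one) this

/-- the determinant is monotone -/
theorem det_mono {m : Type} [Fintype m] {A : Matrix n n ℂ} (hA : A.PosDef)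
    (C : Matrix m n ℂ) : ‖A.det‖ ≤ ‖(A + Cᴴ * C).det‖ := by
  classical
  have hu : IsUnit A.det := (Matrix.isUnit_iff_isUnit_det _).1 hA.isUnit
  have h1 : A + Cᴴ * C = A * (1 + (A⁻¹ * Cᴴ) * C) := by
    rw [mul_add, mul_one, Matrix.mul_assoc, ← Matrix.mul_assoc A A⁻¹, Matrix.mul_nonsing_inv A hu,
      Matrix.one_mul]
  have h2 : (C * A⁻¹ * Cᴴ).PosSemidef := hA.inv.posSemidef.mul_mul_conjTranspose_same C
  have h3 := one_le_det_one_add h2
  rw [h1, det_mul, det_one_add_mul_comm, norm_mul, ← Matrix.mul_assoc]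
  nlinarith [norm_nonneg A.det]

omit [Fintype n] in
theorem posDef_add {P : Matrix n n ℂ} (hP : P.PosSemidef) {δ : ℝ} (hδ : 0 < δ) :
    ((δ : ℂ) • (1 : Matrix n n ℂ) + P).PosDef := by
  refine PosDef.add_posSemidef ?_ hP
  exact Matrix.PosDef.one.smul (by exact_mod_cast hδ)

/-- splitting of `BᴴB` over the rows in and outside the image of `I` -/
theorem split_rows {κ l : Type} [Fintype κ] [DecidableEq κ] {r : ℕ}
    (B : Matrix κ l ℂ) (I : Fin r → κ) (hI : Function.Injective I) :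
    ∃ D : Matrix κ l ℂ, Bᴴ * B = (B.submatrix I id)ᴴ * (B.submatrix I id) + Dᴴ * D := by
  refine ⟨Matrix.of fun i j => if i ∈ Finset.univ.image I then 0 else B i j, ?_⟩
  ext a b
  rw [Matrix.add_apply, Matrix.mul_apply, Matrix.mul_apply, Matrix.mul_apply]
  simp only [conjTranspose_apply, submatrix_apply, id, Matrix.of_apply]
  rw [← Finset.sum_add_sum_compl (Finset.univ.image I), Finset.sum_image (fun x _ y _ h => hI h)]
  congr 1
  rw [← Finset.sum_add_sum_compl (Finset.univ.image I) (fun i => star (if i ∈ Finset.univ.image I then 0 else B i a) * (if i ∈ Finset.univ.image I then 0 else B i b))]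
  rw [Finset.sum_eq_zero (s := Finset.univ.image I), zero_add]
  · refine Finset.sum_congr rfl fun i hi => ?_
    rw [Finset.mem_compl] at hi
    rw [if_neg hi, if_neg hi]
  · intro i hi
    rw [if_pos hi, if_pos hi, mul_zero]

end

/-- lower bound of `det (δ + |B|²)` by a minor -/
theorem det_ge_minor {κ : Type} [Fintype κ] [DecidableEq κ] {r : ℕ} (B : Matrix κ κ ℂ)
    (I J : Fin r → κ) (hI : Function.Injective I) (hJ : Function.Injective J) {δ : ℝ}
    (hδ : 0 < δ) :
    δ ^ (Fintype.card κ - r) * ‖(B.submatrix I J).det‖ ^ 2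
      ≤ ‖((δ : ℂ) • (1 : Matrix κ κ ℂ) + Bᴴ * B).det‖ := by
  have hr : r ≤ Fintype.card κ := by
    simpa using Fintype.card_le_of_injective I hI
  obtain ⟨D, hD⟩ := split_rows B I hI
  set C : Matrix (Fin r) κ ℂ := B.submatrix I id with hC
  have hC2 : (C.submatrix id J) = B.submatrix I J := rfl
  obtain ⟨E, hE⟩ := split_rows Cᴴ J hJ
  rw [conjTranspose_conjTranspose] at hE
  have hE2 : (Cᴴ.submatrix J id) = (B.submatrix I J)ᴴ := rfl
  rw [hE2, conjTranspose_conjTranspose] at hE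
  set S : Matrix (Fin r) (Fin r) ℂ := B.submatrix I J with hS
  -- step 1
  have h1 : ‖((δ : ℂ) • (1 : Matrix κ κ ℂ) + Cᴴ * C).det‖
      ≤ ‖((δ : ℂ) • (1 : Matrix κ κ ℂ) + Bᴴ * B).det‖ := by
    rw [hD, ← add_assoc]
    exact det_mono (posDef_add (posSemidef_conjTranspose_mul_self C) hδ) D
  -- step 2
  have hδ0 : (δ : ℂ) ≠ 0 := by exact_mod_cast hδ.ne'
  have h2 : ((δ : ℂ) • (1 : Matrix κ κ ℂ) + Cᴴ * C).det
      = (δ : ℂ) ^ (Fintype.card κ - r) * ((δ : ℂ) • (1 : Matrix (Fin r) (Fin r) ℂ) + C * Cᴴ).det := by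
    have e1 : (δ : ℂ) • (1 : Matrix κ κ ℂ) + Cᴴ * C
        = (δ : ℂ) • (1 + (((δ : ℂ)⁻¹) • Cᴴ) * C) := by
      rw [smul_add, Matrix.smul_mul, smul_smul, mul_inv_cancel₀ hδ0, one_smul]
    have e2 : (δ : ℂ) • (1 : Matrix (Fin r) (Fin r) ℂ) + C * Cᴴ
        = (δ : ℂ) • (1 + C * (((δ : ℂ)⁻¹) • Cᴴ)) := by
      rw [smul_add, Matrix.mul_smul, smul_smul, mul_inv_cancel₀ hδ0, one_smul]
    rw [e1, e2, det_smul, det_smul, det_one_add_mul_comm, ← mul_assoc, ← pow_add, Fintype.card_fin]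
    congr 2
    omega
  -- step 3
  have h3 : ‖((δ : ℂ) • (1 : Matrix (Fin r) (Fin r) ℂ) + S * Sᴴ).det‖
      ≤ ‖((δ : ℂ) • (1 : Matrix (Fin r) (Fin r) ℂ) + C * Cᴴ).det‖ := by
    rw [hE, ← add_assoc]
    exact det_mono (posDef_add (posSemidef_self_mul_conjTranspose S) hδ) E
  -- step 4
  have h4 : ‖S.det‖ ^ 2 ≤ ‖((δ : ℂ) • (1 : Matrix (Fin r) (Fin r) ℂ) + S * Sᴴ).det‖ := by
    have hP : (S * Sᴴ).PosSemidef := posSemidef_self_mul_conjTranspose S
    have e1 := det_add_herm hP.isHermitian δ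
    have e2 := hP.isHermitian.det_eq_prod_eigenvalues
    have e3 : ‖(S * Sᴴ).det‖ = ‖S.det‖ ^ 2 := by
      rw [det_mul, det_conjTranspose, norm_mul, norm_star, sq]
    rw [← e3, e1, e2, Complex.norm_real, norm_prod]
    have e4 : ∀ i, ‖((hP.isHermitian.eigenvalues i : ℝ) : ℂ)‖ = hP.isHermitian.eigenvalues i := by
      intro i
      rw [Complex.norm_real, Real.norm_of_nonneg (hP.eigenvalues_nonneg i)]
    have e5 : (∏ i, ‖((hP.isHermitian.eigenvalues i : ℝ) : ℂ)‖) = ∏ i, hP.isHermitian.eigenvalues i :=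
      Finset.prod_congr rfl fun i _ => e4 i
    refine le_trans (le_of_eq e5) (le_trans ?_ (le_abs_self _))
    exact Finset.prod_le_prod (fun i _ => hP.eigenvalues_nonneg i) fun i _ => by linarith
  calc δ ^ (Fintype.card κ - r) * ‖S.det‖ ^ 2
      ≤ δ ^ (Fintype.card κ - r) * ‖((δ : ℂ) • (1 : Matrix (Fin r) (Fin r) ℂ) + C * Cᴴ).det‖ := by
        gcongr
        exact h4.trans h3
    _ = ‖((δ : ℂ) • (1 : Matrix κ κ ℂ) + Cᴴ * C).det‖ := by
        rw [h2, norm_mul, norm_pow, Complex.norm_real, Real.norm_of_nonneg hδ.le]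
    _ ≤ _ := h1

end Pool.Agent.TH322.AC
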