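import Pool.Agent.TH322.AC.Fin

/-!
# Finite matrices with entries in a ring of integers: lower bound of `∑ log (δ + λ)`
-/

set_option autoImplicit false
open scoped ComplexConjugate ComplexOrder Matrix
open Matrix Finset

namespace Pool.Agent.TH322.AC

section
variable {κ : Type} [Fintype κ] [DecidableEq κ]

/-- the squared singular values -/
noncomputable def sv (B : Matrix κ κ ℂ) : κ → ℝ :=
  (isHermitian_conjTranspose_mul_self B).eigenvalues

theorem sv_nonneg (B : Matrix κ κ ℂ) (i : κ) : 0 ≤ sv B i :=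
  (posSemidef_conjTranspose_mul_self B).eigenvalues_nonneg i

theorem det_sv (B : Matrix κ κ ℂ) {δ : ℝ} (hδ : 0 ≤ δ) :
    ‖((δ : ℂ) • (1 : Matrix κ κ ℂ) + Bᴴ * B).det‖ = ∏ i, (δ + sv B i) := by
  rw [det_add_herm (isHermitian_conjTranspose_mul_self B) δ, Complex.norm_real]
  exact Real.norm_of_nonneg (Finset.prod_nonneg fun i _ => add_nonneg hδ (sv_nonneg B i))

theorem rank_sv (B : Matrix κ κ ℂ) :
    Fintype.card κ - B.rank = (Finset.univ.filter fun i => sv B i = 0).card := by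
  classical
  have h1 : B.rank = Fintype.card {i // sv B i ≠ 0} := by
    rw [← rank_conjTranspose_mul_self B]
    exact (isHermitian_conjTranspose_mul_self B).rank_eq_card_non_zero_eigs
  have h2 : Fintype.card {i // sv B i ≠ 0} = (Finset.univ.filter fun i => sv B i ≠ 0).card :=
    Fintype.card_subtype _
  have h3 := Finset.card_filter_add_card_filter_not (s := (Finset.univ : Finset κ))
    (fun i => sv B i = 0)
  rw [Finset.card_univ] at h3
  rw [h1, h2]
  have h4 : (Finset.univ.filter fun i => sv B i ≠ 0).card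
    = (Finset.univ.filter fun i => ¬ sv B i = 0).card := rfl
  omega

/-- the operator norm of the matrix `B` on `ℓ²` is at most `C` -/
def OpLe (B : Matrix κ κ ℂ) (C : ℝ) : Prop :=
  ∀ x : κ → ℂ, ∑ i, ‖(B *ᵥ x) i‖ ^ 2 ≤ C ^ 2 * ∑ i, ‖x i‖ ^ 2

omit [DecidableEq κ] in
theorem star_dot (x : κ → ℂ) : star x ⬝ᵥ x = ((∑ i, ‖x i‖ ^ 2 : ℝ) : ℂ) := by
  rw [dotProduct]
  push_cast
  refine Finset.sum_congr rfl fun i _ => ?_
  exact Complex.conj_mul' (x i)

theorem sv_le (B : Matrix κ κ ℂ) {C : ℝ} (h : OpLe B C) (i : κ) : sv B i ≤ C ^ 2 := by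
  set hH := isHermitian_conjTranspose_mul_self B with hHdef
  set v : κ → ℂ := ⇑(hH.eigenvectorBasis i) with hv
  have h1 : sv B i = ∑ j, ‖(B *ᵥ v) j‖ ^ 2 := by
    have e1 : sv B i = RCLike.re (dotProduct (star v) ((Bᴴ * B) *ᵥ v)) := hH.eigenvalues_eq i
    rw [e1, ← Matrix.mulVec_mulVec, Matrix.dotProduct_mulVec, ← Matrix.star_mulVec, star_dot]
    exact Complex.ofReal_re _
  have h2 : ∑ j, ‖v j‖ ^ 2 = 1 := by
    have e1 := hH.eigenvectorBasis.orthonormal.1 i
    rw [EuclideanSpace.norm_eq, Real.sqrt_eq_one] at e1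
    exact e1
  have h3 := h v
  rw [h2, mul_one] at h3
  rw [h1]
  exact h3

/-- traces of real polynomials in a hermitian matrix -/
theorem trace_aeval (B : Matrix κ κ ℂ) (q : Polynomial ℝ) :
    (Matrix.trace (Polynomial.aeval (Bᴴ * B) q)).re = ∑ i, q.eval (sv B i) := by
  set hH := isHermitian_conjTranspose_mul_self B with hHdef
  have hpow : ∀ k : ℕ, (Matrix.trace ((Bᴴ * B) ^ k)).re = ∑ i, (sv B i) ^ k := by
    intro k
    have h1 := hH.spectral_theorem
    have h2 : (Bᴴ * B) ^ k = Unitary.conjStarAlgAut ℂ _ hH.eigenvectorUnitary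
        ((diagonal (RCLike.ofReal ∘ hH.eigenvalues)) ^ k) := by
      rw [map_pow, ← h1]
    rw [h2, Unitary.conjStarAlgAut_apply, Matrix.trace_mul_cycle]
    have h3 : (star (hH.eigenvectorUnitary : Matrix κ κ ℂ)) * (hH.eigenvectorUnitary : Matrix κ κ ℂ)
        = 1 := Unitary.coe_star_mul_self _
    rw [Matrix.diagonal_pow]
    have h4 : ((star hH.eigenvectorUnitary : unitary (Matrix κ κ ℂ)) : Matrix κ κ ℂ)
        = star (hH.eigenvectorUnitary : Matrix κ κ ℂ) := rfl
    rw [h3, Matrix.one_mul, Matrix.trace_diagonal, Complex.re_sum]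
    refine Finset.sum_congr rfl fun i _ => ?_
    simp only [Pi.pow_apply, Function.comp_apply]
    have h5 : ((RCLike.ofReal (hH.eigenvalues i) : ℂ)) = ((hH.eigenvalues i : ℝ) : ℂ) := rfl
    rw [h5, ← Complex.ofReal_pow, Complex.ofReal_re]
    rfl
  induction q using Polynomial.induction_on' with
  | add p q hp hq =>
    rw [map_add, Matrix.trace_add, Complex.add_re, hp, hq, ← Finset.sum_add_distrib]
    exact Finset.sum_congr rfl fun i _ => by rw [Polynomial.eval_add]
  | monomial k a =>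
    rw [Polynomial.aeval_monomial, ← Algebra.smul_def, Matrix.trace_smul, Complex.real_smul,
      Complex.re_ofReal_mul, hpow, Finset.mul_sum]
    exact Finset.sum_congr rfl fun i _ => by rw [Polynomial.eval_monomial]

end

/-- lower bound for matrices over a ring with embeddings satisfying the product inequality -/
theorem integral_bound {R ι : Type} [CommRing R] [Fintype ι] (σ : ι → (R →+* ℂ)) (w : ι → ℕ)
    (hinj : ∀ v, Function.Injective (σ v)) (hN : ∀ m : R, m ≠ 0 → 1 ≤ ∏ v, ‖σ v m‖ ^ w v)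
    (v₀ : ι) {κ : Type} [Fintype κ] [DecidableEq κ] (m : Matrix κ κ R) {δ : ℝ} (hδ : 0 < δ) :
    ((∑ v, w v : ℕ) : ℝ) * ((Finset.univ.filter fun i => sv (m.map (σ v₀)) i = 0).card : ℝ)
        * Real.log δ
      ≤ ∑ v, (w v : ℝ) * ∑ i, Real.log (δ + sv (m.map (σ v)) i) := by
  have hm := exists_minor (m.map (σ v₀))
  generalize hr : (m.map (σ v₀)).rank = r at hm
  obtain ⟨I, J, hI, hJ, hdet⟩ := hm
  set d : R := (m.submatrix I J).det with hd
  have hσ : ∀ v, ((m.map (σ v)).submatrix I J).det = σ v d := by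
    intro v
    rw [hd, RingHom.map_det]
    rfl
  have hd0 : d ≠ 0 := by
    intro h
    apply hdet
    rw [hσ, h, map_zero]
  have hpos : ∀ v, 0 < ‖σ v d‖ := fun v => norm_pos_iff.2 (by
    rw [← map_zero (σ v)]
    exact fun h => hd0 (hinj v h))
  have hk := rank_sv (m.map (σ v₀))
  rw [hr] at hk
  rw [← hk]
  have h1 : ∀ v, ((Fintype.card κ - r : ℕ) : ℝ) * Real.log δ + 2 * Real.log ‖σ v d‖
      ≤ ∑ i, Real.log (δ + sv (m.map (σ v)) i) := by
    intro v
    have e1 := det_ge_minor (m.map (σ v)) I J hI hJ hδ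
    rw [hσ, det_sv _ hδ.le] at e1
    have e2 : Real.log (δ ^ (Fintype.card κ - r) * ‖σ v d‖ ^ 2)
        = ((Fintype.card κ - r : ℕ) : ℝ) * Real.log δ + 2 * Real.log ‖σ v d‖ := by
      rw [Real.log_mul (by positivity) (by have := hpos v; positivity), Real.log_pow, Real.log_pow]
      norm_num
    rw [← e2, ← Real.log_prod (s := Finset.univ)
      (fun i _ => (add_pos_of_pos_of_nonneg hδ (sv_nonneg _ i)).ne')]
    exact Real.log_le_log (by have := hpos v; positivity) e1
  have h2 : 0 ≤ ∑ v, (w v : ℝ) * (2 * Real.log ‖σ v d‖) := by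
    have e1 := hN d hd0
    have e2 := Real.log_nonneg e1
    rw [Real.log_prod (s := Finset.univ) (fun v _ => (pow_pos (hpos v) _).ne')] at e2
    have e3 : ∑ v, (w v : ℝ) * (2 * Real.log ‖σ v d‖) = 2 * ∑ v, Real.log (‖σ v d‖ ^ w v) := by
      rw [Finset.mul_sum]
      refine Finset.sum_congr rfl fun v _ => ?_
      rw [Real.log_pow]
      ring
    rw [e3]
    positivity
  calc ((∑ v, w v : ℕ) : ℝ) * ((Fintype.card κ - r : ℕ) : ℝ) * Real.log δ
      ≤ ∑ v, (w v : ℝ) * (((Fintype.card κ - r : ℕ) : ℝ) * Real.log δ + 2 * Real.log ‖σ v d‖) := by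
        have e4 : ∑ v, (w v : ℝ) * (((Fintype.card κ - r : ℕ) : ℝ) * Real.log δ
            + 2 * Real.log ‖σ v d‖) = ((∑ v, w v : ℕ) : ℝ) * ((Fintype.card κ - r : ℕ) : ℝ)
              * Real.log δ + ∑ v, (w v : ℝ) * (2 * Real.log ‖σ v d‖) := by
          rw [Nat.cast_sum, mul_assoc, Finset.sum_mul, ← Finset.sum_add_distrib]
          exact Finset.sum_congr rfl fun v _ => by ring
        rw [e4]
        linarith
    _ ≤ _ := Finset.sum_le_sum fun v _ => mul_le_mul_of_nonneg_left (h1 v) (Nat.cast_nonneg _)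

end Pool.Agent.TH322.AC
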