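import Pool.Agent.TH322.AC.Fin2
import Pool.Agent.W253.RO.MainB

/-!
# Compressions of finite-range operators to finite sets
-/

set_option autoImplicit false
open scoped ComplexConjugate InnerProductSpace Topology Matrix Pointwise
open Matrix

namespace Pool.Agent.TH322.AC

section OpLe
variable {κ : Type} [Fintype κ] [DecidableEq κ]

omit [DecidableEq κ] in
theorem OpLe.mul {A B : Matrix κ κ ℂ} {a c : ℝ} (hA : OpLe A a) (hB : OpLe B c) :
    OpLe (A * B) (a * c) := by
  intro x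
  rw [← Matrix.mulVec_mulVec]
  refine (hA _).trans ?_
  rw [mul_pow, mul_assoc]
  exact mul_le_mul_of_nonneg_left (hB x) (sq_nonneg a)

theorem OpLe.one : OpLe (1 : Matrix κ κ ℂ) 1 := by
  intro x
  rw [Matrix.one_mulVec, one_pow, one_mul]

theorem OpLe.pow {A : Matrix κ κ ℂ} {a : ℝ} (hA : OpLe A a) (k : ℕ) : OpLe (A ^ k) (a ^ k) := by
  induction k with
  | zero => simpa using OpLe.one
  | succ k ih => rw [pow_succ, pow_succ]; exact ih.mul hA

theorem OpLe.entry {A : Matrix κ κ ℂ} {a : ℝ} (ha : 0 ≤ a) (hA : OpLe A a) (i : κ) :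
    ‖A i i‖ ≤ a := by
  have h1 := hA (Pi.single i 1)
  have h2 : ∑ j, ‖(Pi.single i (1 : ℂ) : κ → ℂ) j‖ ^ 2 = 1 := by
    rw [Finset.sum_eq_single i]
    · simp
    · intro j _ hj
      rw [Pi.single_eq_of_ne hj]
      simp
    · simp
  rw [h2, mul_one] at h1
  have h3 : ‖(A *ᵥ Pi.single i 1) i‖ ^ 2 ≤ ∑ j, ‖(A *ᵥ Pi.single i 1) j‖ ^ 2 :=
    Finset.single_le_sum (f := fun j => ‖(A *ᵥ Pi.single i 1) j‖ ^ 2)
      (fun j _ => sq_nonneg _) (Finset.mem_univ i)
  rw [Matrix.mulVec_single_one] at h3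
  have h4 : ‖A i i‖ ^ 2 ≤ a ^ 2 := by
    refine le_trans ?_ (h3.trans (by rw [← Matrix.mulVec_single_one]; exact h1))
    exact le_rfl
  exact (sq_le_sq₀ (norm_nonneg _) ha).1 h4

end OpLe

section Loc
variable {G H : Type} [Group G] [DecidableEq G] [NormedAddCommGroup H] [InnerProductSpace ℂ H]
  [CompleteSpace H] (b : HilbertBasis G ℂ H)

/-- the compression of `T` to the span of the basis vectors in `S` -/
noncomputable def cpr (T : H →L[ℂ] H) (S : Finset G) : Matrix S S ℂ :=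
  Matrix.of fun i j => ⟪b (i : G), T (b (j : G))⟫_ℂ

/-- the embedding of the functions on `S` -/
noncomputable def emb (S : Finset G) (x : S → ℂ) : H := ∑ j, x j • b (j : G)

/-- `x` is supported in `W` -/
def Sup (x : H) (W : Set G) : Prop := ∀ j, j ∉ W → ⟪b j, x⟫_ℂ = 0

/-- `T` has range in `U` -/
def Rng (T : H →L[ℂ] H) (U : Set G) : Prop := ∀ i j : G, i⁻¹ * j ∉ U → ⟪b i, T (b j)⟫_ℂ = 0

omit [Group G] [CompleteSpace H] [DecidableEq G] in
theorem inner_emb (S : Finset G) (x : S → ℂ) (i : S) : ⟪b (i : G), emb b S x⟫_ℂ = x i := by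
  classical
  unfold emb
  rw [inner_sum, Finset.sum_eq_single i]
  · rw [inner_smul_right, inner_self_eq_norm_sq_to_K, b.orthonormal.1]
    simp
  · intro j _ hj
    rw [inner_smul_right, b.orthonormal.2 (fun h => hj (Subtype.ext h).symm), mul_zero]
  · simp

omit [Group G] [CompleteSpace H] [DecidableEq G] in
theorem inner_emb_out (S : Finset G) (x : S → ℂ) (i : G) (hi : i ∉ S) :
    ⟪b i, emb b S x⟫_ℂ = 0 := by
  unfold emb
  rw [inner_sum]
  refine Finset.sum_eq_zero fun j _ => ?_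
  have hij : i ≠ (j : G) := fun h => hi (by rw [h]; exact j.2)
  rw [inner_smul_right, b.orthonormal.2 hij, mul_zero]

omit [Group G] [CompleteSpace H] [DecidableEq G] in
theorem ext_inner {x y : H} (h : ∀ i, ⟪b i, x⟫_ℂ = ⟪b i, y⟫_ℂ) : x = y := by
  apply b.repr.injective
  ext i
  rw [b.repr_apply_apply, b.repr_apply_apply, h]

omit [Group G] [CompleteSpace H] [DecidableEq G] in
theorem cpr_mulVec (T : H →L[ℂ] H) (S : Finset G) (x : S → ℂ) (i : S) :
    (cpr b T S *ᵥ x) i = ⟪b (i : G), T (emb b S x)⟫_ℂ := by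
  unfold emb
  rw [Matrix.mulVec, dotProduct, map_sum, inner_sum]
  refine Finset.sum_congr rfl fun j _ => ?_
  rw [map_smul, inner_smul_right, mul_comm]
  rfl

omit [Group G] [CompleteSpace H] [DecidableEq G] in
theorem norm_emb (S : Finset G) (x : S → ℂ) : ‖emb b S x‖ ^ 2 = ∑ j, ‖x j‖ ^ 2 := by
  have hO : Orthonormal ℂ (fun j : S => b (j : G)) :=
    b.orthonormal.comp _ Subtype.val_injective
  have h1 := hO.inner_sum x x Finset.univ
  have h2 : ⟪emb b S x, emb b S x⟫_ℂ = ((∑ j, ‖x j‖ ^ 2 : ℝ) : ℂ) := by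
    unfold emb
    rw [h1]
    push_cast
    exact Finset.sum_congr rfl fun j _ => Complex.conj_mul' (x j)
  rw [inner_self_eq_norm_sq_to_K] at h2
  have h3 : ((‖emb b S x‖ ^ 2 : ℝ) : ℂ) = ((∑ j, ‖x j‖ ^ 2 : ℝ) : ℂ) := by
    rw [← h2]
    push_cast
    rfl
  exact Complex.ofReal_injective h3

omit [Group G] [CompleteSpace H] [DecidableEq G] in
theorem cpr_opLe (T : H →L[ℂ] H) (S : Finset G) {C : ℝ} (hT : ‖T‖ ≤ C) :
    OpLe (cpr b T S) C := by
  intro x
  have h1 : ∑ i, ‖(cpr b T S *ᵥ x) i‖ ^ 2 ≤ ‖T (emb b S x)‖ ^ 2 := by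
    simp_rw [cpr_mulVec]
    have h2 := b.orthonormal.sum_inner_products_le (x := T (emb b S x)) (s := S)
    rw [← Finset.sum_coe_sort] at h2
    exact h2
  refine h1.trans ?_
  rw [← norm_emb b, ← mul_pow]
  have h3 : ‖T (emb b S x)‖ ≤ C * ‖emb b S x‖ :=
    (T.le_opNorm _).trans (mul_le_mul_of_nonneg_right hT (norm_nonneg _))
  exact pow_le_pow_left₀ (norm_nonneg _) h3 2

omit [Group G] [DecidableEq G] in
theorem cpr_star (T : H →L[ℂ] H) (S : Finset G) : (cpr b T S)ᴴ = cpr b (star T) S := by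
  ext i j
  rw [conjTranspose_apply]
  show conj ⟪b (j : G), T (b (i : G))⟫_ℂ = ⟪b (i : G), (star T) (b (j : G))⟫_ℂ
  rw [inner_conj_symm, ContinuousLinearMap.star_eq_adjoint, ContinuousLinearMap.adjoint_inner_right]

omit [DecidableEq G] in
theorem Sup_apply {T : H →L[ℂ] H} {U : Set G} (hT : Rng b T U) (hU : ∀ u ∈ U, u⁻¹ ∈ U)
    {x : H} {W : Set G} (hx : Sup b x W) : Sup b (T x) (W * U) := by
  intro l hl
  have h1 : ⟪b l, T x⟫_ℂ = ∑' j : G, ⟪b l, T (b j)⟫_ℂ * ⟪b j, x⟫_ℂ := by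
    have h2 : ⟪b l, T x⟫_ℂ = ⟪star T (b l), x⟫_ℂ := by
      rw [ContinuousLinearMap.star_eq_adjoint, ContinuousLinearMap.adjoint_inner_left]
    rw [h2, ← b.tsum_inner_mul_inner]
    refine tsum_congr fun j => ?_
    rw [ContinuousLinearMap.star_eq_adjoint, ContinuousLinearMap.adjoint_inner_left]
  rw [h1]
  have h3 : ∀ j : G, ⟪b l, T (b j)⟫_ℂ * ⟪b j, x⟫_ℂ = 0 := by
    intro j
    by_cases hj : j ∈ W
    · rw [hT l j ?_, zero_mul]
      intro hu
      apply hl
      refine Set.mem_mul.2 ⟨j, hj, (l⁻¹ * j)⁻¹, hU _ hu, ?_⟩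
      group
    · rw [hx j hj, mul_zero]
  simp_rw [h3]
  exact tsum_zero

omit [DecidableEq G] in
theorem Rng_star {T : H →L[ℂ] H} {U : Set G} (hT : Rng b T U) (hU : ∀ u ∈ U, u⁻¹ ∈ U) :
    Rng b (star T) U := by
  intro i j hij
  rw [ContinuousLinearMap.star_eq_adjoint, ContinuousLinearMap.adjoint_inner_right,
    ← inner_conj_symm, hT j i ?_, map_zero]
  intro h
  apply hij
  have := hU _ h
  have e : (j⁻¹ * i)⁻¹ = i⁻¹ * j := by group
  rw [e] at this
  exact this

omit [Group G] [CompleteSpace H] [DecidableEq G] in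
theorem emb_mulVec (T : H →L[ℂ] H) (S : Finset G) (x : S → ℂ)
    (h : Sup b (T (emb b S x)) (S : Set G)) : emb b S (cpr b T S *ᵥ x) = T (emb b S x) := by
  refine ext_inner b fun i => ?_
  by_cases hi : i ∈ S
  · have h1 := inner_emb b S (cpr b T S *ᵥ x) ⟨i, hi⟩
    rw [cpr_mulVec] at h1
    exact h1
  · rw [inner_emb_out b S _ i hi, h i hi]

omit [Group G] [CompleteSpace H] in
theorem emb_single (S : Finset G) (i : S) : emb b S (Pi.single i 1) = b (i : G) := by
  unfold emb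
  rw [Finset.sum_eq_single i]
  · simp
  · intro j _ hj
    rw [Pi.single_eq_of_ne hj, zero_smul]
  · simp

theorem emb_pow {T : H →L[ℂ] H} {U : Set G} (hT : Rng b T U) (hU : ∀ u ∈ U, u⁻¹ ∈ U)
    (hU1 : (1 : G) ∈ U) (S : Finset G) (i : S) (k : ℕ)
    (hi : ∀ u ∈ U ^ (2 * k), (i : G) * u ∈ S) :
    emb b S (((cpr b T S)ᴴ * cpr b T S) ^ k *ᵥ Pi.single i 1) = ((star T * T) ^ k) (b (i : G)) ∧
      Sup b (((star T * T) ^ k) (b (i : G))) ({(i : G)} * U ^ (2 * k)) := by
  induction k with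
  | zero =>
    refine ⟨?_, ?_⟩
    · rw [pow_zero, pow_zero, Matrix.one_mulVec, emb_single]
      rfl
    · intro j hj
      rw [pow_zero]
      show ⟪b j, b (i : G)⟫_ℂ = 0
      refine b.orthonormal.2 fun h => hj ?_
      rw [h]
      refine Set.mem_mul.2 ⟨(i : G), rfl, 1, ?_, mul_one _⟩
      simp
  | succ k ih =>
    have hmono1 : U ^ (2 * k) ⊆ U ^ (2 * k + 1) := Set.pow_subset_pow_right hU1 (by omega)
    have hmono2 : U ^ (2 * k + 1) ⊆ U ^ (2 * (k + 1)) := Set.pow_subset_pow_right hU1 (by omega)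
    obtain ⟨ih1, ih2⟩ := ih fun u hu => hi u (hmono2 (hmono1 hu))
    have hsub : ∀ n, n ≤ 2 * (k + 1) → ∀ y ∈ ({(i : G)} : Set G) * U ^ n, y ∈ (S : Set G) := by
      intro n hn y hy
      obtain ⟨i', hi', u, hu, rfl⟩ := Set.mem_mul.1 hy
      rw [Set.mem_singleton_iff] at hi'
      subst hi'
      exact hi u (Set.pow_subset_pow_right hU1 hn hu)
    have hA : Sup b (T (((star T * T) ^ k) (b (i : G)))) ({(i : G)} * U ^ (2 * k + 1)) := by
      have := Sup_apply b hT hU ih2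
      rw [mul_assoc, ← pow_succ] at this
      exact this
    have hB : Sup b ((star T) (T (((star T * T) ^ k) (b (i : G))))) ({(i : G)} * U ^ (2 * (k + 1))) := by
      have := Sup_apply b (Rng_star b hT hU) hU hA
      rw [mul_assoc, ← pow_succ] at this
      exact this
    have hS : ∀ (n : ℕ) (x : H), n ≤ 2 * (k + 1) → Sup b x ({(i : G)} * U ^ n) →
        Sup b x (S : Set G) := fun n x hn hx j hj => hx j fun h => hj (hsub n hn j h)
    have e1 : ((star T * T) ^ (k + 1)) (b (i : G)) = (star T) (T (((star T * T) ^ k) (b (i : G)))) := by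
      rw [pow_succ']
      rfl
    rw [e1]
    refine ⟨?_, hB⟩
    rw [pow_succ', ← Matrix.mulVec_mulVec, ← Matrix.mulVec_mulVec, cpr_star]
    have e2 : emb b S (cpr b T S *ᵥ (((cpr b T S)ᴴ * cpr b T S) ^ k *ᵥ Pi.single i 1))
        = T (((star T * T) ^ k) (b (i : G))) := by
      rw [emb_mulVec, ih1]
      rw [ih1]
      exact hS _ _ (by omega) hA
    rw [cpr_star] at e2
    rw [emb_mulVec, e2]
    rw [e2]
    exact hS _ _ le_rfl hB

/-- diagonal entries of powers, far from the boundary -/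
theorem entry_pow {T : H →L[ℂ] H} {U : Set G} (hT : Rng b T U) (hU : ∀ u ∈ U, u⁻¹ ∈ U)
    (hU1 : (1 : G) ∈ U) (S : Finset G) (i : S) (k : ℕ)
    (hi : ∀ u ∈ U ^ (2 * k), (i : G) * u ∈ S) :
    (((cpr b T S)ᴴ * cpr b T S) ^ k) i i = ⟪b (i : G), ((star T * T) ^ k) (b (i : G))⟫_ℂ := by
  rw [← (emb_pow b hT hU hU1 S i k hi).1, inner_emb, Matrix.mulVec_single_one]
  rfl

/-- comparison of the trace of a polynomial of the compression with the sum of diagonal
coefficients -/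
theorem trace_compare {T : H →L[ℂ] H} {U : Set G} (hT : Rng b T U) (hU : ∀ u ∈ U, u⁻¹ ∈ U)
    (hU1 : (1 : G) ∈ U) (S : Finset G) {C : ℝ} (hC : ‖T‖ ≤ C) (q : Polynomial ℝ) (N : ℕ)
    (hN : q.natDegree ≤ N) (bad : Finset G)
    (hbad : ∀ i ∈ S, i ∉ bad → ∀ u ∈ U ^ (2 * N), i * u ∈ S) :
    (Matrix.trace (Polynomial.aeval ((cpr b T S)ᴴ * cpr b T S) q)).re
      ≤ (∑ i ∈ S, ⟪b i, (Polynomial.aeval (star T * T) q) (b i)⟫_ℂ).re
        + (bad.card : ℝ) * (2 * ∑ k ∈ Finset.range (N + 1), |q.coeff k| * (C ^ 2) ^ k) := by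
  have hC0 : 0 ≤ C := (norm_nonneg _).trans hC
  set A : Matrix S S ℂ := (cpr b T S)ᴴ * cpr b T S with hA
  set K : ℝ := ∑ k ∈ Finset.range (N + 1), |q.coeff k| * (C ^ 2) ^ k with hK
  have hK0 : 0 ≤ K := Finset.sum_nonneg fun k _ => by positivity
  have hAe : Polynomial.aeval A q = ∑ k ∈ Finset.range (N + 1), q.coeff k • A ^ k := by
    rw [Polynomial.aeval_eq_sum_range' (Nat.lt_succ_of_le hN)]
  have hZe : Polynomial.aeval (star T * T) q
      = ∑ k ∈ Finset.range (N + 1), q.coeff k • (star T * T) ^ k := by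
    rw [Polynomial.aeval_eq_sum_range' (Nat.lt_succ_of_le hN)]
  have hOp : OpLe A (C ^ 2) := by
    rw [hA, cpr_star, sq]
    refine (cpr_opLe b _ S ?_).mul (cpr_opLe b _ S hC)
    rw [norm_star]
    exact hC
  have hdA : ∀ i : S, (Polynomial.aeval A q) i i
      = ∑ k ∈ Finset.range (N + 1), (q.coeff k : ℂ) * (A ^ k) i i := by
    intro i
    rw [hAe, Matrix.sum_apply]
    refine Finset.sum_congr rfl fun k _ => ?_
    rw [Matrix.smul_apply, Complex.real_smul]
  have hdZ : ∀ i : G, ⟪b i, (Polynomial.aeval (star T * T) q) (b i)⟫_ℂ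
      = ∑ k ∈ Finset.range (N + 1), (q.coeff k : ℂ) * ⟪b i, ((star T * T) ^ k) (b i)⟫_ℂ := by
    intro i
    rw [hZe, _root_.sum_apply, inner_sum]
    refine Finset.sum_congr rfl fun k _ => ?_
    rw [_root_.smul_apply, ← Complex.coe_smul, inner_smul_right]
  have hgood : ∀ i : S, (i : G) ∉ bad → (Polynomial.aeval A q) i i
      = ⟪b (i : G), (Polynomial.aeval (star T * T) q) (b (i : G))⟫_ℂ := by
    intro i hi
    rw [hdA, hdZ]
    refine Finset.sum_congr rfl fun k hk => ?_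
    rw [hA, entry_pow b hT hU hU1 S i k]
    intro u hu
    rw [Finset.mem_range] at hk
    exact hbad i i.2 hi u (Set.pow_subset_pow_right hU1 (by omega) hu)
  have hbdA : ∀ i : S, ‖(Polynomial.aeval A q) i i‖ ≤ K := by
    intro i
    rw [hdA]
    refine (norm_sum_le _ _).trans (Finset.sum_le_sum fun k _ => ?_)
    rw [norm_mul, Complex.norm_real, Real.norm_eq_abs]
    exact mul_le_mul_of_nonneg_left ((hOp.pow k).entry (by positivity) i) (abs_nonneg _)
  have hbdZ : ∀ i : G, ‖⟪b i, (Polynomial.aeval (star T * T) q) (b i)⟫_ℂ‖ ≤ K := by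
    intro i
    rw [hdZ]
    refine (norm_sum_le _ _).trans (Finset.sum_le_sum fun k _ => ?_)
    rw [norm_mul, Complex.norm_real, Real.norm_eq_abs]
    refine mul_le_mul_of_nonneg_left ?_ (abs_nonneg _)
    have h1 : ‖((star T * T) ^ k) (b i)‖ ≤ (C ^ 2) ^ k := by
      have h2 : ‖star T * T‖ ≤ C ^ 2 := by
        rw [CStarRing.norm_star_mul_self, sq]
        exact mul_le_mul hC hC (norm_nonneg _) hC0
      have h3 : ‖(star T * T) ^ k‖ ≤ (C ^ 2) ^ k := by
        rcases Nat.eq_zero_or_pos k with hk | hk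
        · subst hk
          rw [pow_zero, pow_zero]
          exact ContinuousLinearMap.norm_id_le
        · exact (norm_pow_le' _ hk).trans (pow_le_pow_left₀ (norm_nonneg _) h2 k)
      have h4 := ((star T * T) ^ k).le_opNorm (b i)
      rw [b.orthonormal.1 i, mul_one] at h4
      exact h4.trans h3
    refine (norm_inner_le_norm _ _).trans ?_
    rw [b.orthonormal.1 i, one_mul]
    exact h1
  -- comparison
  have hsum : ∑ i ∈ S, ⟪b i, (Polynomial.aeval (star T * T) q) (b i)⟫_ℂ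
      = ∑ i : S, ⟪b (i : G), (Polynomial.aeval (star T * T) q) (b (i : G))⟫_ℂ := by
    rw [← Finset.sum_coe_sort]
  rw [hsum, Matrix.trace, Complex.re_sum, Complex.re_sum]
  have hterm : ∀ i : S, (Matrix.diag (Polynomial.aeval A q) i).re
      ≤ (⟪b (i : G), (Polynomial.aeval (star T * T) q) (b (i : G))⟫_ℂ).re
        + if (i : G) ∈ bad then 2 * K else 0 := by
    intro i
    rw [Matrix.diag_apply]
    by_cases hi : (i : G) ∈ bad
    · rw [if_pos hi]
      have h1 := (Complex.abs_re_le_norm _).trans (hbdA i)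
      have h2 := (Complex.abs_re_le_norm _).trans (hbdZ i)
      have h3 := (abs_le.1 h1).2
      have h4 := (abs_le.1 h2).1
      linarith
    · rw [if_neg hi, hgood i hi, add_zero]
  refine (Finset.sum_le_sum fun i _ => hterm i).trans ?_
  rw [Finset.sum_add_distrib]
  refine add_le_add le_rfl ?_
  have h5 : ∑ i : S, (if (i : G) ∈ bad then 2 * K else 0)
      = ∑ i ∈ S, (if i ∈ bad then 2 * K else 0) := by
    rw [← Finset.sum_coe_sort S (fun i => if i ∈ bad then 2 * K else 0)]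
  rw [h5, ← Finset.sum_filter, Finset.sum_const, nsmul_eq_mul]
  refine mul_le_mul_of_nonneg_right ?_ (by linarith)
  have h6 : S.filter (fun i => i ∈ bad) ⊆ bad := fun i hi => (Finset.mem_filter.1 hi).2
  exact_mod_cast Finset.card_le_card h6

end Loc

end Pool.Agent.TH322.AC
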