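import Pool.Agent.TH322.AC.Lim
import Pool.Agent.TH322.AC.Loc
import Pool.Agent.W883.RO.TR

/-!
# Covariant fields of finite range with integral coefficients over an amenable group are limits of
integral matrices
-/

set_option autoImplicit false
open scoped ComplexConjugate InnerProductSpace Topology Matrix Pointwise BoundedContinuousFunction
open Matrix MeasureTheory Filter

namespace Pool.Agent.TH322.AC
open Pool.Agent.H712R5.BO Pool.Agent.W611.RO

/-- Følner's condition -/
def Fol (G : Type) [Group G] [DecidableEq G] : Prop :=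
  ∀ (K : Finset G) (ε : ℝ), 0 < ε → ∃ S : Finset G, S.Nonempty ∧
    ∀ g ∈ K, ((S.filter fun i => i * g ∉ S).card : ℝ) ≤ ε * S.card

section
variable {G Ω H : Type} [Group G] [Countable G] [DecidableEq G] [MeasurableSpace Ω] [MulAction G Ω]
  [NormedAddCommGroup H] [InnerProductSpace ℂ H] [CompleteSpace H]

/-- families of fields of finite range whose matrix coefficients are the conjugates of elements of
`R` -/
def IntF (b : HilbertBasis G ℂ H) (L : G → unitary (H →L[ℂ] H)) {R ι : Type} [CommRing R]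
    (σ : ι → (R →+* ℂ)) (X : ι → CF (Ω := Ω) b L) : Prop :=
  (∃ U : Finset G, ∀ (v : ι) (ω : Ω), Rng b (ev b L ω (X v)) (U : Set G)) ∧
    ∀ (ω : Ω) (i j : G), ∃ m : R, ∀ v, ⟪b i, ev b L ω (X v) (b j)⟫_ℂ = σ v m

omit [DecidableEq G] in
theorem int_diag (P : Measure Ω) [IsProbabilityMeasure P] (b : HilbertBasis G ℂ H)
    (L : G → unitary (H →L[ℂ] H)) (hL : Reg b L)
    (hmp : ∀ g : G, MeasurePreserving (fun ω : Ω => g • ω) P P) (A : CF (Ω := Ω) b L) (i : G) :
    ∫ ω, ⟪b i, ev b L ω A (b i)⟫_ℂ ∂P = tau P b L A := by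
  have hm : AEStronglyMeasurable (fun ω : Ω => ⟪b i, ev b L ω A (b i)⟫_ℂ)
      (P.map (fun ω : Ω => i • ω)) := (ev_meas b L A (b i) (b i)).aestronglyMeasurable
  have h4 := integral_map (hmp i).measurable.aemeasurable hm
  rw [(hmp i).map_eq] at h4
  rw [h4, tau_apply]
  refine integral_congr_ae (Eventually.of_forall fun ω => ?_)
  have h5 := TR_shift b L hL A i ω 1 1
  rw [mul_one] at h5
  exact h5

omit [DecidableEq G] in
theorem ev_aeval (b : HilbertBasis G ℂ H) (L : G → unitary (H →L[ℂ] H)) (ω : Ω)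
    (A : CF (Ω := Ω) b L) (q : Polynomial ℝ) :
    ev b L ω (Polynomial.aeval (star A * A) q)
      = Polynomial.aeval (star (ev b L ω A) * ev b L ω A) q := by
  rw [← map_star, ← map_mul]
  exact (Polynomial.aeval_algHom_apply ((ev b L ω : CF (Ω := Ω) b L →ₐ[ℂ] (H →L[ℂ] H)).restrictScalars ℝ)
    (star A * A) q).symm

omit [DecidableEq G] in
theorem int_sum_diag (P : Measure Ω) [IsProbabilityMeasure P] (b : HilbertBasis G ℂ H)
    (L : G → unitary (H →L[ℂ] H)) (hL : Reg b L)
    (hmp : ∀ g : G, MeasurePreserving (fun ω : Ω => g • ω) P P) (A : CF (Ω := Ω) b L)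
    (S : Finset G) :
    Integrable (fun ω => (∑ i ∈ S, ⟪b i, ev b L ω A (b i)⟫_ℂ).re) P ∧
    ∫ ω, (∑ i ∈ S, ⟪b i, ev b L ω A (b i)⟫_ℂ).re ∂P = S.card * (tau P b L A).re := by
  have h0 : Integrable (fun ω => ∑ i ∈ S, ⟪b i, ev b L ω A (b i)⟫_ℂ) P :=
    integrable_finsetSum _ fun i _ => ev_int P b L A (b i) (b i)
  refine ⟨h0.re, ?_⟩
  have h3 : ∫ ω, (∑ i ∈ S, ⟪b i, ev b L ω A (b i)⟫_ℂ).re ∂P
      = (∫ ω, ∑ i ∈ S, ⟪b i, ev b L ω A (b i)⟫_ℂ ∂P).re := integral_re h0
  rw [h3, integral_finsetSum _ fun i _ => ev_int P b L A (b i) (b i),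
    Finset.sum_congr rfl fun i _ => int_diag P b L hL hmp A i, Finset.sum_const, nsmul_eq_mul,
    ← Complex.ofReal_natCast, Complex.re_ofReal_mul]

theorem PP_of_fol (hF : Fol G) (P : Measure Ω) [IsProbabilityMeasure P] (b : HilbertBasis G ℂ H)
    (L : G → unitary (H →L[ℂ] H)) (hL : Reg b L)
    (hmp : ∀ g : G, MeasurePreserving (fun ω : Ω => g • ω) P P) {R ι : Type} [CommRing R]
    [Fintype ι] (σ : ι → (R →+* ℂ)) (X : ι → CF (Ω := Ω) b L) (hX : IntF b L σ X) :
    PP (tau P b L) σ (fun v => ‖X v‖) X := by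
  intro q hq
  obtain ⟨⟨U₀, hU₀⟩, hint⟩ := hX
  set U : Finset G := U₀ ∪ U₀⁻¹ ∪ {1} with hUdef
  have hU1 : (1 : G) ∈ U := by
    rw [hUdef]
    exact Finset.mem_union_right _ (Finset.mem_singleton_self _)
  have hUinv : ∀ u ∈ (U : Set G), u⁻¹ ∈ (U : Set G) := by
    intro u hu
    rw [Finset.mem_coe] at hu ⊢
    rw [hUdef, Finset.mem_union, Finset.mem_union] at hu ⊢
    rcases hu with (hu | hu) | hu
    · exact Or.inl (Or.inr (Finset.inv_mem_inv hu))
    · refine Or.inl (Or.inl ?_)
      rw [Finset.mem_inv'] at hu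
      exact hu
    · rw [Finset.mem_singleton] at hu
      subst hu
      rw [inv_one]
      exact Or.inr (Finset.mem_singleton_self _)
  have hRng : ∀ (v : ι) (ω : Ω), Rng b (ev b L ω (X v)) (U : Set G) := by
    intro v ω i j hij
    refine hU₀ v ω i j fun h => hij ?_
    rw [hUdef]
    exact Finset.mem_coe.2 (Finset.mem_union_left _ (Finset.mem_union_left _ h))
  set N : ℕ := ∑ v, (q v).natDegree with hN
  have hNv : ∀ v, (q v).natDegree ≤ N := fun v =>
    Finset.single_le_sum (f := fun v => (q v).natDegree) (fun _ _ => Nat.zero_le _)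
      (Finset.mem_univ v)
  set K : ι → ℝ := fun v => 2 * ∑ k ∈ Finset.range (N + 1), |(q v).coeff k| * (‖X v‖ ^ 2) ^ k with hK
  have hK0 : ∀ v, 0 ≤ K v := fun v => by
    rw [hK]
    exact mul_nonneg zero_le_two (Finset.sum_nonneg fun k _ => by positivity)
  have hKs : 0 ≤ ∑ v, K v := Finset.sum_nonneg fun v _ => hK0 v
  set F : Finset G := U ^ (2 * N) with hFdef
  -- it suffices to have the inequality up to `η`
  refine le_of_forall_pos_le_add fun η' hη' => ?_
  set η : ℝ := η' / (∑ v, K v + 1) with hη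
  have hη0 : 0 < η := by positivity
  have hηle : η * ∑ v, K v ≤ η' := by
    rw [hη, div_mul_eq_mul_div, div_le_iff₀ (by positivity)]
    nlinarith
  obtain ⟨S, hSne, hS⟩ := hF F (η / (F.card + 1)) (by positivity)
  have hScard : (0 : ℝ) < S.card := by exact_mod_cast hSne.card_pos
  set bad : Finset G := S.filter (fun i => ∃ u ∈ F, i * u ∉ S) with hbad
  have hbadcard : (bad.card : ℝ) ≤ η * S.card := by
    have h1 : bad ⊆ F.biUnion fun u => S.filter fun i => i * u ∉ S := by
      intro i hi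
      rw [hbad, Finset.mem_filter] at hi
      obtain ⟨hiS, u, hu, hiu⟩ := hi
      exact Finset.mem_biUnion.2 ⟨u, hu, Finset.mem_filter.2 ⟨hiS, hiu⟩⟩
    have h2 : (bad.card : ℝ) ≤ ∑ u ∈ F, ((S.filter fun i => i * u ∉ S).card : ℝ) := by
      have := (Finset.card_le_card h1).trans Finset.card_biUnion_le
      exact_mod_cast this
    have h3 : ∑ u ∈ F, ((S.filter fun i => i * u ∉ S).card : ℝ)
        ≤ ∑ _u ∈ F, η / (F.card + 1) * S.card := Finset.sum_le_sum fun u hu => hS u hu
    rw [Finset.sum_const, nsmul_eq_mul] at h3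
    have h4 : (F.card : ℝ) * (η / (F.card + 1) * S.card) ≤ η * S.card := by
      rw [← mul_assoc]
      refine mul_le_mul_of_nonneg_right ?_ hScard.le
      rw [mul_div_assoc', div_le_iff₀ (by positivity)]
      nlinarith
    linarith
  -- the pointwise inequality
  have hpt : ∀ ω : Ω, 0 ≤ ∑ v, ((∑ i ∈ S,
      ⟪b i, ev b L ω (Polynomial.aeval (star (X v) * X v) (q v)) (b i)⟫_ℂ).re
        + (bad.card : ℝ) * K v) := by
    intro ω
    choose m hm using hint ω
    have hcpr : ∀ v, (Matrix.of fun i j : S => m (i : G) (j : G)).map (σ v)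
        = cpr b (ev b L ω (X v)) S := by
      intro v
      ext i j
      exact (hm _ _ v).symm
    have h1 := hq S (Matrix.of fun i j : S => m (i : G) (j : G)) (fun v => by
      rw [hcpr]
      exact cpr_opLe b _ S (ev_norm b L ω (X v)))
    refine h1.trans (Finset.sum_le_sum fun v _ => ?_)
    rw [hcpr, ev_aeval]
    have h2 := trace_compare b (hRng v ω) hUinv (by exact_mod_cast hU1) S
      (ev_norm b L ω (X v)) (q v) N (hNv v) bad (fun i hiS hi u hu => by
        by_contra hc
        apply hi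
        rw [hbad, Finset.mem_filter]
        refine ⟨hiS, u, ?_, hc⟩
        rw [hFdef, ← Finset.mem_coe, Finset.coe_pow]
        exact hu)
    exact h2
  -- integration
  set g : ι → Ω → ℝ := fun v ω => (∑ i ∈ S,
      ⟪b i, ev b L ω (Polynomial.aeval (star (X v) * X v) (q v)) (b i)⟫_ℂ).re with hg
  have hgI : ∀ v, Integrable (g v) P := fun v =>
    (int_sum_diag P b L hL hmp (Polynomial.aeval (star (X v) * X v) (q v)) S).1
  have hgE : ∀ v, ∫ ω, g v ω ∂P
      = S.card * (tau P b L (Polynomial.aeval (star (X v) * X v) (q v))).re := fun v =>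
    (int_sum_diag P b L hL hmp (Polynomial.aeval (star (X v) * X v) (q v)) S).2
  have hpt' : ∀ ω : Ω, 0 ≤ ∑ v, (g v ω + (bad.card : ℝ) * K v) := hpt
  clear_value g
  have h1 : 0 ≤ ∫ ω, ∑ v, (g v ω + (bad.card : ℝ) * K v) ∂P := integral_nonneg fun ω => hpt' ω
  have hgI2 : ∀ v ∈ (Finset.univ : Finset ι), Integrable (fun ω => g v ω + (bad.card : ℝ) * K v) P :=
    fun v _ => (hgI v).add (integrable_const _)
  rw [integral_finsetSum _ hgI2] at h1
  have h2 : ∀ v, ∫ ω, (g v ω + (bad.card : ℝ) * K v) ∂P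
      = S.card * (tau P b L (Polynomial.aeval (star (X v) * X v) (q v))).re
        + (bad.card : ℝ) * K v := by
    intro v
    rw [integral_add (hgI v) (integrable_const _), hgE v, integral_const]
    simp
  rw [Finset.sum_congr rfl fun v _ => h2 v, Finset.sum_add_distrib, ← Finset.mul_sum,
    ← Finset.mul_sum] at h1
  have h5 : (bad.card : ℝ) * ∑ v, K v ≤ S.card * η' := by
    calc (bad.card : ℝ) * ∑ v, K v ≤ (η * S.card) * ∑ v, K v :=
          mul_le_mul_of_nonneg_right hbadcard hKs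
      _ = S.card * (η * ∑ v, K v) := by ring
      _ ≤ S.card * η' := mul_le_mul_of_nonneg_left hηle hScard.le
  have h6 : 0 ≤ (S.card : ℝ) * (∑ v, (tau P b L (Polynomial.aeval (star (X v) * X v) (q v))).re
      + η') := by linarith
  exact nonneg_of_mul_nonneg_right h6 hScard

end

end Pool.Agent.TH322.AC
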