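import Pool.Agent.TH322.AC.Fol
import Pool.Agent.W545.RO.Erg

/-!
# Kernels of covariant fields
-/

set_option autoImplicit false
open scoped ComplexConjugate InnerProductSpace Topology BoundedContinuousFunction
open MeasureTheory Filter

namespace Pool.Agent.TH322.AC
open Pool.Agent.H712R5.BO Pool.Agent.W611.RO

/-- the polynomial `1 - x / ρ` -/
noncomputable def lp1 (ρ : ℝ) : Polynomial ℝ := 1 - Polynomial.C ρ⁻¹ * Polynomial.X

/-- the average of the first `n` powers of `1 - x / ρ` -/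
noncomputable def sp (ρ : ℝ) (n : ℕ) : Polynomial ℝ :=
  Polynomial.C (n : ℝ)⁻¹ * ∑ k ∈ Finset.range n, (lp1 ρ) ^ k

theorem sp_zero (ρ : ℝ) {n : ℕ} (hn : 1 ≤ n) : (sp ρ n).eval 0 = 1 := by
  have hn0 : (n : ℝ) ≠ 0 := by
    have : (0 : ℝ) < n := by exact_mod_cast hn
    exact this.ne'
  simp [sp, lp1, Polynomial.eval_finsetSum, hn0]

theorem lp1_eval {ρ : ℝ} (hρ : 0 < ρ) {x : ℝ} (h0 : 0 ≤ x) (h1 : x ≤ ρ) :
    0 ≤ (lp1 ρ).eval x ∧ (lp1 ρ).eval x ≤ 1 := by
  have h2 : (lp1 ρ).eval x = 1 - ρ⁻¹ * x := by simp [lp1]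
  rw [h2]
  have h3 : ρ⁻¹ * x ≤ 1 := by
    rw [inv_mul_le_iff₀ hρ, mul_one]
    exact h1
  have h4 : 0 ≤ ρ⁻¹ * x := by positivity
  constructor <;> linarith

theorem sp_nonneg {ρ : ℝ} (hρ : 0 < ρ) (n : ℕ) {x : ℝ} (h0 : 0 ≤ x) (h1 : x ≤ ρ) :
    0 ≤ (sp ρ n).eval x := by
  have h2 := (lp1_eval hρ h0 h1).1
  have h3 : (sp ρ n).eval x = (n : ℝ)⁻¹ * ∑ k ∈ Finset.range n, ((lp1 ρ).eval x) ^ k := by
    simp [sp, Polynomial.eval_finsetSum]
  rw [h3]
  exact mul_nonneg (by positivity) (Finset.sum_nonneg fun k _ => pow_nonneg h2 k)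

theorem norm_lp1 {A : Type} [CStarAlgebra A] (X : A) {ρ : ℝ} (hρ : 0 < ρ) (hX : ‖X‖ ^ 2 ≤ ρ) :
    ‖Polynomial.aeval (star X * X) (lp1 ρ)‖ ≤ 1 := by
  have hsa : IsSelfAdjoint (star X * X) := IsSelfAdjoint.star_mul_self X
  rw [← cfc_polynomial (lp1 ρ) (star X * X) hsa]
  refine norm_cfc_le zero_le_one fun x hx => ?_
  have h1 := spec_le X le_rfl hx
  have h2 := lp1_eval hρ h1.1 (h1.2.trans hX)
  rw [Real.norm_eq_abs, abs_le]
  constructor <;> linarith [h2.1, h2.2]

theorem aeval_sp {A : Type} [CStarAlgebra A] (a : A) (ρ : ℝ) (n : ℕ) :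
    Polynomial.aeval a (sp ρ n)
      = (n : ℂ)⁻¹ • ∑ k ∈ Finset.range n, (Polynomial.aeval a (lp1 ρ)) ^ k := by
  unfold sp
  rw [map_mul, Polynomial.aeval_C, ← Algebra.smul_def, map_sum, ← Complex.coe_smul]
  push_cast
  congr 1
  exact Finset.sum_congr rfl fun k _ => by rw [map_pow]

theorem norm_sp {A : Type} [CStarAlgebra A] (X : A) {ρ : ℝ} (hρ : 0 < ρ) (hX : ‖X‖ ^ 2 ≤ ρ)
    (n : ℕ) : ‖Polynomial.aeval (star X * X) (sp ρ n)‖ ≤ 1 := by
  rw [aeval_sp]
  rcases Nat.eq_zero_or_pos n with hn | hn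
  · subst hn
    simp
  · have hn0 : (0 : ℝ) < n := by exact_mod_cast hn
    rw [norm_smul, norm_inv, Complex.norm_natCast, inv_mul_le_iff₀ hn0, mul_one]
    calc ‖∑ k ∈ Finset.range n, (Polynomial.aeval (star X * X) (lp1 ρ)) ^ k‖
        ≤ ∑ k ∈ Finset.range n, ‖(Polynomial.aeval (star X * X) (lp1 ρ)) ^ k‖ := norm_sum_le _ _
      _ ≤ ∑ _k ∈ Finset.range n, (1 : ℝ) := by
          refine Finset.sum_le_sum fun k _ => ?_
          rcases Nat.eq_zero_or_pos k with hk | hk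
          · subst hk
            rw [pow_zero]
            rcases subsingleton_or_nontrivial A with hs | hs
            · rw [Subsingleton.elim (1 : A) 0, norm_zero]; exact zero_le_one
            · rw [CStarRing.norm_one]
          · exact (norm_pow_le' _ hk).trans (pow_le_one₀ (norm_nonneg _) (norm_lp1 X hρ hX))
      _ = n := by simp

section Hilb
variable {H : Type} [NormedAddCommGroup H] [InnerProductSpace ℂ H] [CompleteSpace H]

theorem lim_proj (T : H →L[ℂ] H) {ρ : ℝ} (hρ : 0 < ρ) (hT : ‖T‖ ^ 2 ≤ ρ) :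
    ∃ Q : H → H, (∀ x, Tendsto (fun n => (Polynomial.aeval (star T * T) (sp ρ n)) x) atTop
      (𝓝 (Q x))) ∧ (∀ x, T x = 0 → Q x = x) ∧ ∀ x, T (Q x) = 0 := by
  set f : H →L[ℂ] H := Polynomial.aeval (star T * T) (lp1 ρ) with hf
  have hfn : ‖f‖ ≤ 1 := norm_lp1 T hρ hT
  have hfx : ∀ x, f x = x - (ρ⁻¹ : ℝ) • (star T) (T x) := by
    intro x
    have e1 : f = 1 - (ρ⁻¹ : ℝ) • (star T * T) := by
      rw [hf, lp1, map_sub, map_one, map_mul, Polynomial.aeval_C, Polynomial.aeval_X,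
        ← Algebra.smul_def]
    rw [e1]
    rfl
  have hfix : ∀ x, f x = x ↔ T x = 0 := by
    intro x
    rw [hfx]
    constructor
    · intro h
      have h1 : (ρ⁻¹ : ℝ) • (star T) (T x) = 0 := by
        have h2 : x - (ρ⁻¹ : ℝ) • (star T) (T x) - x = 0 := by rw [h, sub_self]
        have h3 : x - (ρ⁻¹ : ℝ) • (star T) (T x) - x = -((ρ⁻¹ : ℝ) • (star T) (T x)) := by abel
        rw [h3, neg_eq_zero] at h2
        exact h2
      have h4 : (star T) (T x) = 0 := (smul_eq_zero.1 h1).resolve_left (inv_ne_zero hρ.ne')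
      have h5 : ⟪T x, T x⟫_ℂ = 0 := by
        have h6 : ⟪x, (star T) (T x)⟫_ℂ = ⟪T x, T x⟫_ℂ := by
          rw [ContinuousLinearMap.star_eq_adjoint, ContinuousLinearMap.adjoint_inner_right]
        rw [← h6, h4, inner_zero_right]
      exact inner_self_eq_zero.1 h5
    · intro h
      rw [h, map_zero, smul_zero, sub_zero]
  refine ⟨fun x => ((f.eqLocus (1 : H →L[ℂ] H)).orthogonalProjectionOnto x : H), ?_, ?_, ?_⟩
  · intro x
    have h1 := ContinuousLinearMap.tendsto_birkhoffAverage_orthogonalProjection f hfn x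
    refine h1.congr fun n => ?_
    rw [aeval_sp]
    show (n : ℂ)⁻¹ • birkhoffSum f _root_.id n x = _
    rw [_root_.smul_apply, _root_.sum_apply]
    congr 1
    unfold birkhoffSum
    refine Finset.sum_congr rfl fun k _ => ?_
    show f^[k] x = (f ^ k) x
    have := ContinuousLinearMap.coe_pow' f k
    rw [this]
  · intro x hx
    have h1 : x ∈ f.eqLocus (1 : H →L[ℂ] H) := (hfix x).2 hx
    exact congrArg Subtype.val
      ((f.eqLocus (1 : H →L[ℂ] H)).orthogonalProjectionOnto_mem_subspace_eq_self ⟨x, h1⟩)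
  · intro x
    have h1 := ((f.eqLocus (1 : H →L[ℂ] H)).orthogonalProjectionOnto x).2
    exact (hfix _).1 h1

end Hilb

section
variable {G Ω H : Type} [Group G] [Countable G] [MeasurableSpace Ω] [MulAction G Ω]
  [NormedAddCommGroup H] [InnerProductSpace ℂ H] [CompleteSpace H]

/-- the kernels of a covariant field: nontrivial almost everywhere, zero almost everywhere, or the
field vanishes almost everywhere -/
theorem ker_dich (P : Measure Ω) [IsProbabilityMeasure P] (b : HilbertBasis G ℂ H)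
    (L : G → unitary (H →L[ℂ] H)) (hL : Reg b L) (herg : Erg G P) (X : CF (Ω := Ω) b L) :
    (∀ᵐ ω ∂P, HasHyp (ev b L ω X)) ∨ (∀ᵐ ω ∂P, ∀ x, ev b L ω X x = 0 → x = 0) ∨
      (∀ᵐ ω ∂P, ev b L ω X = 0) := by
  set ρ : ℝ := ‖X‖ ^ 2 + 1 with hρdef
  have hρ : 0 < ρ := by positivity
  have hXρ : ‖X‖ ^ 2 ≤ ρ := by linarith
  have hev : ∀ ω : Ω, ‖ev b L ω X‖ ^ 2 ≤ ρ := fun ω => by
    have := ev_norm b L ω X
    have := pow_le_pow_left₀ (norm_nonneg _) this 2
    linarith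
  choose Q hQ1 hQ2 hQ3 using fun ω : Ω => lim_proj (ev b L ω X) hρ (hev ω)
  have hlim : ∀ (ω : Ω) (x : H), Tendsto (fun n =>
      ev b L ω (Polynomial.aeval (star X * X) (sp ρ n)) x) atTop (𝓝 (Q ω x)) := by
    intro ω x
    simp_rw [ev_aeval]
    exact hQ1 ω x
  rcases Pool.Agent.W545.RO.t_ERG G Ω H P b L hL herg
    (fun n => Polynomial.aeval (star X * X) (sp ρ n)) 1 (fun n => norm_sp X hρ hXρ n) with h | h
  · left
    filter_upwards [h] with ω hω
    refine ⟨LinearMap.ker (ev b L ω X : H →ₗ[ℂ] H), (ev b L ω X).isClosed_ker, ?_, ?_, ?_⟩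
    · intro hbot
      apply hω
      refine ⟨0, fun x => ?_⟩
      have h1 : Q ω x ∈ LinearMap.ker (ev b L ω X : H →ₗ[ℂ] H) := hQ3 ω x
      rw [hbot, Submodule.mem_bot] at h1
      have h2 := hlim ω x
      rw [h1] at h2
      rw [zero_smul]
      exact h2
    · intro htop
      apply hω
      refine ⟨1, fun x => ?_⟩
      have h1 : x ∈ LinearMap.ker (ev b L ω X : H →ₗ[ℂ] H) := by rw [htop]; trivial
      have h2 := hlim ω x
      rw [hQ2 ω x h1] at h2
      rw [one_smul]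
      exact h2
    · intro R hR x hx
      have h1 : ev b L ω X x = 0 := hx
      show ev b L ω X (R x) = 0
      have h2 : (R * ev b L ω X) x = (ev b L ω X * R) x := by rw [hR]
      have h3 : R (ev b L ω X x) = ev b L ω X (R x) := h2
      rw [← h3, h1, map_zero]
  · right
    obtain ⟨c, hc⟩ := h
    by_cases hc0 : c = 0
    · left
      filter_upwards [hc] with ω hω x hx
      have h1 := hω x
      have h2 := hlim ω x
      rw [hQ2 ω x hx] at h2
      have h3 := tendsto_nhds_unique h2 h1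
      rw [hc0, zero_smul] at h3
      exact h3
    · right
      filter_upwards [hc] with ω hω
      ext x
      have h1 := hω x
      have h2 := hlim ω x
      have h3 := tendsto_nhds_unique h2 h1
      have h4 := hQ3 ω x
      rw [h3, map_smul] at h4
      exact (smul_eq_zero.1 h4).resolve_left hc0

/-- polynomials detecting the kernel, for injective fields -/
theorem kerpoly (P : Measure Ω) [IsProbabilityMeasure P] (b : HilbertBasis G ℂ H)
    (L : G → unitary (H →L[ℂ] H)) (X : CF (Ω := Ω) b L)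
    (hinj : ∀ᵐ ω ∂P, ∀ x, ev b L ω X x = 0 → x = 0) (ε : ℝ) (hε : 0 < ε) :
    ∃ s : Polynomial ℝ, 1 ≤ s.eval 0 ∧ (∀ x ∈ Set.Icc (0 : ℝ) (‖X‖ ^ 2), 0 ≤ s.eval x) ∧
      (tau P b L (Polynomial.aeval (star X * X) s)).re ≤ ε := by
  set ρ : ℝ := ‖X‖ ^ 2 + 1 with hρdef
  have hρ : 0 < ρ := by positivity
  have hXρ : ‖X‖ ^ 2 ≤ ρ := by linarith
  have hev : ∀ ω : Ω, ‖ev b L ω X‖ ^ 2 ≤ ρ := fun ω => by
    have := ev_norm b L ω X
    have := pow_le_pow_left₀ (norm_nonneg _) this 2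
    linarith
  have hb : ‖b 1‖ = 1 := b.orthonormal.1 1
  have hlim : Tendsto (fun n => tau P b L (Polynomial.aeval (star X * X) (sp ρ n))) atTop
      (𝓝 0) := by
    have h0 : ∫ _ω : Ω, (0 : ℂ) ∂P = 0 := integral_zero _ _
    rw [← h0]
    simp_rw [tau_apply]
    refine tendsto_integral_of_dominated_convergence (fun _ => 1)
      (fun n => (ev_meas b L _ (b 1) (b 1)).aestronglyMeasurable) (integrable_const _)
      (fun n => Eventually.of_forall fun ω => ?_) ?_
    · have h1 := ev_inner_le b L (Polynomial.aeval (star X * X) (sp ρ n)) (b 1) (b 1) ω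
      rw [hb, one_mul, one_mul] at h1
      exact h1.trans (norm_sp X hρ hXρ n)
    · filter_upwards [hinj] with ω hω
      obtain ⟨Q, hQ1, hQ2, hQ3⟩ := lim_proj (ev b L ω X) hρ (hev ω)
      have h1 := hQ1 (b 1)
      rw [hω _ (hQ3 (b 1))] at h1
      have h2 : Tendsto (fun n => ⟪b 1, (Polynomial.aeval (star (ev b L ω X) * ev b L ω X)
          (sp ρ n)) (b 1)⟫_ℂ) atTop (𝓝 ⟪b 1, (0 : H)⟫_ℂ) := tendsto_const_nhds.inner h1
      rw [inner_zero_right] at h2
      refine h2.congr fun n => ?_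
      rw [ev_aeval]
  have hre : Tendsto (fun n => (tau P b L (Polynomial.aeval (star X * X) (sp ρ n))).re) atTop
      (𝓝 0) := by
    have := (Complex.continuous_re.tendsto 0).comp hlim
    rw [Complex.zero_re] at this
    exact this
  obtain ⟨n, hn1, hn2⟩ := ((eventually_ge_atTop 1).and
    (hre.eventually (ge_mem_nhds hε))).exists
  exact ⟨sp ρ n, (sp_zero ρ hn1).ge, fun x hx => sp_nonneg hρ n hx.1 (hx.2.trans hXρ), hn2⟩

end

end Pool.Agent.TH322.AC
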