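import Pool.Agent.TH322.AC.Fin2
import Pool.Agent.H712R5.BO.B1

/-!
# Limits of integral matrices in a tracial C*-algebra
-/

set_option autoImplicit false
open scoped ComplexConjugate ComplexOrder Matrix
open Matrix Finset

namespace Pool.Agent.TH322.AC
open Pool.Agent.H712R5.BO

/-- `(X v)` is a limit of matrices over `R`: every inequality between traces of polynomials in the
`|σ v (m)|²` which holds for all finite matrices `m` over `R` holds for the `|X v|²` -/
def PP {A : Type} [CStarAlgebra A] (τ : A →L[ℂ] ℂ) {R ι : Type} [CommRing R] [Fintype ι]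
    (σ : ι → (R →+* ℂ)) (C : ι → ℝ) (X : ι → A) : Prop :=
  ∀ q : ι → Polynomial ℝ, (∀ (κ : Type) [Fintype κ] [DecidableEq κ] (m : Matrix κ κ R),
    (∀ v, OpLe (m.map (σ v)) (C v)) →
      0 ≤ ∑ v, (Matrix.trace (Polynomial.aeval ((m.map (σ v))ᴴ * (m.map (σ v))) (q v))).re) →
    0 ≤ ∑ v, (τ (Polynomial.aeval (star (X v) * X v) (q v))).re

section
variable {A : Type} [CStarAlgebra A]

theorem tau_le (τ : A →L[ℂ] ℂ) (hτ : TrSt τ) (a : A) : ‖τ a‖ ≤ ‖a‖ := by
  obtain ⟨-, -, -, -, -, h6, h7, -, h9, -, -⟩ := t_B1 A τ hτ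
  have h1 := h7 1 a
  rw [one_mul] at h1
  have h2 : n2 τ (1 : A) = 1 := by
    unfold n2
    rw [star_one, one_mul, hτ.one]
    simp
  rw [h2, one_mul] at h1
  exact h1.trans (h6 a)

theorem spec_le (X : A) {C : ℝ} (hX : ‖X‖ ≤ C) : spectrum ℝ (star X * X) ⊆ Set.Icc 0 (C ^ 2) := by
  intro x hx
  refine ⟨spectrum_star_mul_self_nonneg x hx, ?_⟩
  have h1 : ‖x‖ ≤ ‖star X * X‖ * ‖(1 : A)‖ := spectrum.norm_le_norm_mul_of_mem hx
  have h2 : ‖(1 : A)‖ ≤ 1 := by
    rcases subsingleton_or_nontrivial A with hs | hs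
    · rw [Subsingleton.elim (1 : A) 0, norm_zero]; exact zero_le_one
    · rw [CStarRing.norm_one]
  rw [CStarRing.norm_star_mul_self] at h1
  have h3 : x ≤ ‖x‖ := Real.le_norm_self x
  have h4 : ‖X‖ * ‖X‖ ≤ C ^ 2 := by nlinarith [norm_nonneg X]
  nlinarith [norm_nonneg X, mul_nonneg (norm_nonneg X) (norm_nonneg X), norm_nonneg (1 : A)]

theorem log_cfc (X : A) {δ : ℝ} (hδ : 0 < δ) :
    CFC.log (algebraMap ℝ A δ + star X * X) = cfc (fun x : ℝ => Real.log (δ + x)) (star X * X) := by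
  have hsa : IsSelfAdjoint (star X * X) := IsSelfAdjoint.star_mul_self X
  have h1 : algebraMap ℝ A δ + star X * X = cfc (fun x : ℝ => δ + x) (star X * X) := by
    rw [cfc_const_add δ (fun x : ℝ => x) (star X * X), cfc_id' ℝ (star X * X)]
  unfold CFC.log
  rw [h1, ← cfc_comp' Real.log (fun x : ℝ => δ + x) (star X * X) ?_ (by fun_prop) hsa]
  refine Real.continuousOn_log.mono ?_
  rintro _ ⟨x, hx, rfl⟩
  have := spectrum_star_mul_self_nonneg x hx
  have : 0 < δ + x := by linarith
  exact this.ne'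

theorem cont_log {δ : ℝ} (hδ : 0 < δ) (b : ℝ) :
    ContinuousOn (fun x : ℝ => Real.log (δ + x)) (Set.Icc 0 b) := by
  refine ContinuousOn.log (by fun_prop) ?_
  intro x hx
  have := hx.1
  have : 0 < δ + x := by linarith
  exact this.ne'

theorem aeval_le_log (τ : A →L[ℂ] ℂ) (hτ : TrSt τ) (X : A) {C δ ε : ℝ} (hδ : 0 < δ)
    (hX : ‖X‖ ≤ C) (q : Polynomial ℝ)
    (hq : ∀ x ∈ Set.Icc (0 : ℝ) (C ^ 2), |q.eval x - Real.log (δ + x)| ≤ ε) :
    (τ (Polynomial.aeval (star X * X) q)).re
      ≤ (τ (CFC.log (algebraMap ℝ A δ + star X * X))).re + ε := by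
  have hsa : IsSelfAdjoint (star X * X) := IsSelfAdjoint.star_mul_self X
  have hε : 0 ≤ ε := (abs_nonneg _).trans (hq 0 ⟨le_rfl, sq_nonneg C⟩)
  have hc1 : ContinuousOn (fun x : ℝ => q.eval x) (spectrum ℝ (star X * X)) :=
    q.continuous.continuousOn
  have hc2 : ContinuousOn (fun x : ℝ => Real.log (δ + x)) (spectrum ℝ (star X * X)) :=
    (cont_log hδ _).mono (spec_le X hX)
  have h1 : Polynomial.aeval (star X * X) q - CFC.log (algebraMap ℝ A δ + star X * X)
      = cfc (fun x : ℝ => q.eval x - Real.log (δ + x)) (star X * X) := by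
    rw [log_cfc X hδ, cfc_sub _ _ (star X * X) hc1 hc2]
    congr 1
    exact (cfc_polynomial q (star X * X) hsa).symm
  have h2 : ‖Polynomial.aeval (star X * X) q - CFC.log (algebraMap ℝ A δ + star X * X)‖ ≤ ε := by
    rw [h1]
    refine norm_cfc_le hε fun x hx => ?_
    rw [Real.norm_eq_abs]
    exact hq x (spec_le X hX hx)
  have h3 := (Complex.abs_re_le_norm _).trans
    ((tau_le τ hτ (Polynomial.aeval (star X * X) q
      - CFC.log (algebraMap ℝ A δ + star X * X))).trans h2)
  rw [map_sub, Complex.sub_re] at h3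
  have := (abs_le.1 h3).2
  linarith

/-- the determinant inequality for limits of integral matrices -/
theorem logdet_nonneg (τ : A →L[ℂ] ℂ) (hτ : TrSt τ) {R ι : Type} [CommRing R] [Fintype ι]
    (σ : ι → (R →+* ℂ)) (w : ι → ℕ)
    (hinj : ∀ v, Function.Injective (σ v)) (hN : ∀ m : R, m ≠ 0 → 1 ≤ ∏ v, ‖σ v m‖ ^ w v)
    (v₀ : ι) (C : ι → ℝ) (X : ι → A) (hC : ∀ v, ‖X v‖ ≤ C v) (hPP : PP τ σ C X)
    (hker : ∀ ε : ℝ, 0 < ε → ∃ s : Polynomial ℝ, 1 ≤ s.eval 0 ∧
      (∀ x ∈ Set.Icc (0 : ℝ) ((C v₀) ^ 2), 0 ≤ s.eval x) ∧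
      (τ (Polynomial.aeval (star (X v₀) * X v₀) s)).re ≤ ε)
    {δ : ℝ} (hδ : 0 < δ) :
    0 ≤ ∑ v, (w v : ℝ) * (τ (CFC.log (algebraMap ℝ A δ + star (X v) * X v))).re := by
  classical
  set L : ℝ := max 0 (-Real.log δ) with hL
  have hL0 : 0 ≤ L := le_max_left _ _
  have hL1 : -Real.log δ ≤ L := le_max_right _ _
  set W : ℝ := ((∑ v, w v : ℕ) : ℝ) with hW
  have hW0 : 0 ≤ W := Nat.cast_nonneg _
  have hWs : ∑ v, (w v : ℝ) = W := by rw [hW, Nat.cast_sum]
  refine le_of_forall_pos_le_add fun η hη => ?_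
  obtain ⟨ε, hε, hεη⟩ : ∃ ε : ℝ, 0 < ε ∧ ε * (2 * W + W * L) ≤ η := by
    refine ⟨η / (2 * W + W * L + 1), by positivity, ?_⟩
    rw [div_mul_eq_mul_div, div_le_iff₀ (by positivity)]
    nlinarith [mul_nonneg hW0 hL0]
  obtain ⟨s, hs0, hs1, hs2⟩ := hker ε hε
  choose q hq using fun v => exists_polynomial_near_of_continuousOn 0 ((C v) ^ 2)
    (fun x : ℝ => Real.log (δ + x)) (cont_log hδ _) ε hε
  have hmain := hPP (fun v => Polynomial.C (w v : ℝ) * (q v + Polynomial.C ε)
    + if v = v₀ then Polynomial.C (W * L) * s else 0) ?_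
  · -- the conclusion
    have h1 : ∀ v, (τ (Polynomial.aeval (star (X v) * X v)
        (Polynomial.C (w v : ℝ) * (q v + Polynomial.C ε)
          + if v = v₀ then Polynomial.C (W * L) * s else 0))).re
        = (w v : ℝ) * ((τ (Polynomial.aeval (star (X v) * X v) (q v))).re + ε)
          + if v = v₀ then W * L * (τ (Polynomial.aeval (star (X v₀) * X v₀) s)).re else 0 := by
      intro v
      have hone : ∀ r : ℝ, ∀ a : A, (τ (r • a)).re = r * (τ a).re := by
        intro r a
        have : (r • a : A) = (r : ℂ) • a := (Complex.coe_smul r a).symm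
        rw [this, map_smul, smul_eq_mul, Complex.re_ofReal_mul]
      have h2 : (τ (algebraMap ℝ A ε)).re = ε := by
        rw [Algebra.algebraMap_eq_smul_one, hone, hτ.one, Complex.one_re, mul_one]
      have hC' : ∀ (r : ℝ) (p : Polynomial ℝ) (a : A),
          (τ (Polynomial.aeval a (Polynomial.C r * p))).re = r * (τ (Polynomial.aeval a p)).re := by
        intro r p a
        have h5 : Polynomial.aeval a (Polynomial.C r * p) = r • Polynomial.aeval a p := by
          rw [map_mul, Polynomial.aeval_C, ← Algebra.smul_def]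
        rw [h5, hone]
      have hA' : ∀ (p p' : Polynomial ℝ) (a : A),
          (τ (Polynomial.aeval a (p + p'))).re
            = (τ (Polynomial.aeval a p)).re + (τ (Polynomial.aeval a p')).re := by
        intro p p' a
        rw [map_add, map_add, Complex.add_re]
      have hE' : (τ (Polynomial.aeval (star (X v) * X v) (Polynomial.C ε))).re = ε := by
        rw [Polynomial.aeval_C, h2]
      by_cases hv : v = v₀
      · subst hv
        rw [if_pos rfl, if_pos rfl, hA', hC', hC', hA', hE']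
      · rw [if_neg hv, if_neg hv, add_zero, add_zero, hC', hA', hE']
    rw [Finset.sum_congr rfl fun v _ => h1 v, Finset.sum_add_distrib,
      Finset.sum_ite_eq' Finset.univ v₀, if_pos (Finset.mem_univ _)] at hmain
    have h3 : ∑ v, (w v : ℝ) * ((τ (Polynomial.aeval (star (X v) * X v) (q v))).re + ε)
        ≤ ∑ v, (w v : ℝ) * (τ (CFC.log (algebraMap ℝ A δ + star (X v) * X v))).re
          + W * (2 * ε) := by
      rw [← hWs, Finset.sum_mul, ← Finset.sum_add_distrib]
      refine Finset.sum_le_sum fun v _ => ?_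
      rw [← mul_add]
      refine mul_le_mul_of_nonneg_left ?_ (Nat.cast_nonneg _)
      have := aeval_le_log τ hτ (X v) hδ (hC v) (q v) (fun x hx => (hq v x hx).le)
      linarith
    have h4 : W * L * (τ (Polynomial.aeval (star (X v₀) * X v₀) s)).re ≤ W * L * ε :=
      mul_le_mul_of_nonneg_left hs2 (mul_nonneg hW0 hL0)
    nlinarith
  · -- the matrices
    intro κ _ _ m hm
    have hsv : ∀ v i, sv (m.map (σ v)) i ∈ Set.Icc (0 : ℝ) ((C v) ^ 2) := fun v i =>
      ⟨sv_nonneg _ i, sv_le _ (hm v) i⟩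
    have h1 : ∀ v, (Matrix.trace (Polynomial.aeval ((m.map (σ v))ᴴ * (m.map (σ v)))
        (Polynomial.C (w v : ℝ) * (q v + Polynomial.C ε)
          + if v = v₀ then Polynomial.C (W * L) * s else 0))).re
        = (w v : ℝ) * ∑ i, ((q v).eval (sv (m.map (σ v)) i) + ε)
          + if v = v₀ then W * L * ∑ i, s.eval (sv (m.map (σ v₀)) i) else 0 := by
      intro v
      rw [trace_aeval]
      by_cases hv : v = v₀
      · subst hv
        rw [if_pos rfl, if_pos rfl, Finset.mul_sum, Finset.mul_sum, ← Finset.sum_add_distrib]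
        refine Finset.sum_congr rfl fun i _ => ?_
        simp
      · rw [if_neg hv, if_neg hv, add_zero, add_zero, Finset.mul_sum]
        refine Finset.sum_congr rfl fun i _ => ?_
        simp
    rw [Finset.sum_congr rfl fun v _ => h1 v, Finset.sum_add_distrib,
      Finset.sum_ite_eq' Finset.univ v₀, if_pos (Finset.mem_univ _)]
    have h2 := integral_bound σ w hinj hN v₀ m hδ
    set cnt : ℝ := ((Finset.univ.filter fun i => sv (m.map (σ v₀)) i = 0).card : ℝ) with hcnt
    have hcnt0 : 0 ≤ cnt := Nat.cast_nonneg _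
    have h3 : ∑ v, (w v : ℝ) * ∑ i, Real.log (δ + sv (m.map (σ v)) i)
        ≤ ∑ v, (w v : ℝ) * ∑ i, ((q v).eval (sv (m.map (σ v)) i) + ε) := by
      refine Finset.sum_le_sum fun v _ => mul_le_mul_of_nonneg_left ?_ (Nat.cast_nonneg _)
      refine Finset.sum_le_sum fun i _ => ?_
      have := (abs_le.1 (hq v _ (hsv v i)).le).1
      linarith
    have h4 : cnt ≤ ∑ i, s.eval (sv (m.map (σ v₀)) i) := by
      rw [hcnt, Finset.card_eq_sum_ones, Nat.cast_sum, Finset.sum_filter]
      refine Finset.sum_le_sum fun i _ => ?_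
      by_cases hi : sv (m.map (σ v₀)) i = 0
      · rw [if_pos hi, hi]
        exact_mod_cast hs0
      · rw [if_neg hi]
        exact hs1 _ (hsv v₀ i)
    have h5 : 0 ≤ W * cnt * Real.log δ + W * L * cnt := by
      have : W * cnt * Real.log δ + W * L * cnt = W * cnt * (Real.log δ + L) := by ring
      rw [this]
      exact mul_nonneg (mul_nonneg hW0 hcnt0) (by linarith)
    have h6 : W * L * cnt ≤ W * L * ∑ i, s.eval (sv (m.map (σ v₀)) i) :=
      mul_le_mul_of_nonneg_left h4 (mul_nonneg hW0 hL0)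
    linarith

end

end Pool.Agent.TH322.AC
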